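import Pool.Agent.Lib.MP_403d16_lc.Henkin

/-! The canonical Kripke model of locally PA nodes. -/

namespace Pool.Agent.Lib.MP_403d16_lc

/-- A saturated theory with a set of names as its domain. -/
@[ext] structure PNode where
  D : Set ℕ
  Γ : Set Fm
  coinf : Dᶜ.Infinite
  dom : ∀ φ ∈ Γ, InDom D φ
  ded : ∀ φ, InDom D φ → HA Γ φ → φ ∈ Γ
  cons : Fm.bot ∉ Γ
  prime : ∀ φ ψ, Fm.or φ ψ ∈ Γ → φ ∈ Γ ∨ ψ ∈ Γ
  wit : ∀ φ, Fm.ex φ ∈ Γ → ∃ x ∈ D, φ.subst (inst (.var x)) ∈ Γ
  dist : ∀ x ∈ D, ∀ y ∈ D, Fm.eq (.var x) (.var y) ∈ Γ → x = y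

namespace PNode

variable (P : PNode)

theorem exists_val (t : Tm) (ht : ∀ x, t.Free x → x ∈ P.D) :
    ∃ a : P.D, Fm.eq t (.var a) ∈ P.Γ := by
  have h1 : HA P.Γ (.ex (.eq (t.subst shiftVar) (.var 0))) := by
    refine .exI t ?_
    simpa [Fm.subst, Tm.subst, inst] using HA.eqRefl (Γ := P.Γ) t
  have h2 : InDom P.D (.ex (.eq (t.subst shiftVar) (.var 0))) := by
    intro x hx
    rcases hx with hx | hx
    · obtain ⟨y, hy, hy'⟩ := Tm.free_subst.1 hx
      simp only [shiftVar, Tm.Free] at hy'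
      obtain rfl : y = x := by omega
      exact ht y hy
    · simp [Tm.Free] at hx
  obtain ⟨x, hx, hx'⟩ := P.wit _ (P.ded _ h2 h1)
  refine ⟨⟨x, hx⟩, ?_⟩
  simpa [Fm.subst, Tm.subst, inst] using hx'

theorem free2 (a b : P.D) : ∀ x, ((a : ℕ) = x ∨ (b : ℕ) = x) → x ∈ P.D := by
  rintro x (rfl | rfl)
  · exact a.2
  · exact b.2

/-- The structure on the domain of a node. -/
noncomputable def str : ArithStr P.D where
  zero := (P.exists_val .zero (by simp [Tm.Free])).choose
  succ a := (P.exists_val (.succ (.var a)) (by simp [Tm.Free])).choose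
  add a b := (P.exists_val (.add (.var a) (.var b)) (P.free2 a b)).choose
  mul a b := (P.exists_val (.mul (.var a) (.var b)) (P.free2 a b)).choose

theorem str_zero : Fm.eq .zero (.var P.str.zero) ∈ P.Γ :=
  (P.exists_val .zero (by simp [Tm.Free])).choose_spec

theorem str_succ (a : P.D) : Fm.eq (.succ (.var a)) (.var (P.str.succ a)) ∈ P.Γ :=
  (P.exists_val (.succ (.var a)) (by simp [Tm.Free])).choose_spec

theorem str_add (a b : P.D) : Fm.eq (.add (.var a) (.var b)) (.var (P.str.add a b)) ∈ P.Γ :=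
  (P.exists_val (.add (.var a) (.var b)) (P.free2 a b)).choose_spec

theorem str_mul (a b : P.D) : Fm.eq (.mul (.var a) (.var b)) (.var (P.str.mul a b)) ∈ P.Γ :=
  (P.exists_val (.mul (.var a) (.var b)) (P.free2 a b)).choose_spec

/-- Replace variables by the names an assignment gives. -/
def asg {D : Set ℕ} (e : ℕ → D) : ℕ → Tm := fun n => .var (e n)

theorem eval_eq (e : ℕ → P.D) (t : Tm) :
    HA P.Γ (.eq (t.subst (asg e)) (.var ((t.eval P.str e : P.D) : ℕ))) := by
  induction t with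
  | var n => exact .eqRefl _
  | zero => exact .hyp P.str_zero
  | succ t ih => exact HA.trans (HA.congr_succ ih) (.hyp (P.str_succ _))
  | add s t ihs iht => exact HA.trans (HA.congr_add ihs iht) (.hyp (P.str_add _ _))
  | mul s t ihs iht => exact HA.trans (HA.congr_mul ihs iht) (.hyp (P.str_mul _ _))

theorem eq_of_HA {a b : ℕ} (ha : a ∈ P.D) (hb : b ∈ P.D)
    (h : HA P.Γ (.eq (.var a) (.var b))) : a = b := by
  refine P.dist a ha b hb (P.ded _ ?_ h)
  rintro x (hx | hx)
  · simp only [Tm.Free] at hx; rwa [← hx]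
  · simp only [Tm.Free] at hx; rwa [← hx]

theorem eval_eq_iff (e : ℕ → P.D) (s t : Tm) :
    s.eval P.str e = t.eval P.str e ↔ Fm.subst (asg e) (.eq s t) ∈ P.Γ := by
  constructor
  · intro h
    refine P.ded _ (InDom.assign e _) ?_
    have h1 := P.eval_eq e s
    rw [h] at h1
    exact HA.trans h1 (P.eval_eq e t).symm
  · intro h
    refine Subtype.ext (P.eq_of_HA (s.eval P.str e).2 (t.eval P.str e).2 ?_)
    exact HA.trans (P.eval_eq e s).symm (HA.trans (.hyp h) (P.eval_eq e t))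

instance : PartialOrder PNode where
  le P Q := P.D ⊆ Q.D ∧ P.Γ ⊆ Q.Γ
  le_refl P := ⟨subset_rfl, subset_rfl⟩
  le_trans P Q R h h' := ⟨h.1.trans h'.1, h.2.trans h'.2⟩
  le_antisymm P Q h h' := PNode.ext (h.1.antisymm h'.1) (h.2.antisymm h'.2)

end PNode

/-- The canonical Kripke model: all saturated theories whose structure is a model of `PA`. -/
noncomputable def canon : KripkeModel where
  Node := {P : PNode // P.str.IsPA}
  order := inferInstance
  U := ℕ
  dom P := P.1.D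
  str P := P.1.str
  dom_mono h := h.1
  zero_eq := by
    intro P Q h
    refine Q.1.eq_of_HA (h.1 P.1.str.zero.2) Q.1.str.zero.2 ?_
    exact HA.trans (HA.symm (.hyp (h.2 P.1.str_zero))) (.hyp Q.1.str_zero)
  succ_eq := by
    intro P Q h a
    refine Q.1.eq_of_HA (h.1 (P.1.str.succ a).2) (Q.1.str.succ ⟨a, h.1 a.2⟩).2 ?_
    exact HA.trans (HA.symm (.hyp (h.2 (P.1.str_succ a)))) (.hyp (Q.1.str_succ ⟨a, h.1 a.2⟩))
  add_eq := by
    intro P Q h a b
    refine Q.1.eq_of_HA (h.1 (P.1.str.add a b).2)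
      (Q.1.str.add ⟨a, h.1 a.2⟩ ⟨b, h.1 b.2⟩).2 ?_
    exact HA.trans (HA.symm (.hyp (h.2 (P.1.str_add a b))))
      (.hyp (Q.1.str_add ⟨a, h.1 a.2⟩ ⟨b, h.1 b.2⟩))
  mul_eq := by
    intro P Q h a b
    refine Q.1.eq_of_HA (h.1 (P.1.str.mul a b).2)
      (Q.1.str.mul ⟨a, h.1 a.2⟩ ⟨b, h.1 b.2⟩).2 ?_
    exact HA.trans (HA.symm (.hyp (h.2 (P.1.str_mul a b))))
      (.hyp (Q.1.str_mul ⟨a, h.1 a.2⟩ ⟨b, h.1 b.2⟩))

open PNode in
/-- The main extension lemma. -/
theorem exists_node {D E : Set ℕ} {Γ : Set Fm} {ψ : Fm} (hDE : D ⊆ E) (hE : Eᶜ.Infinite)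
    (hdom : ∀ φ ∈ Γ, InDom E φ) (hF : {x | x ∈ E ∧ ∀ γ ∈ Γ, ¬ γ.Free x}.Infinite)
    (hψ : InDom E ψ) (hunp : ¬ HA Γ ψ)
    (hD : ∀ x ∈ D, ∀ y ∈ D, x ≠ y → HA Γ (.imp (.eq (.var x) (.var y)) .bot)) :
    ∃ (Q : PNode) (Δ : Set Fm), Q.str.IsPA ∧ D ⊆ Q.D ∧ Q.D ⊆ E ∧ Γ ⊆ Δ ∧ Q.Γ ⊆ Δ ∧
      ¬ HA Δ ψ ∧ (∀ a ∈ E, ∃ b ∈ Q.D, HA Δ (.eq (.var b) (.var a))) ∧
      (∀ φ, InDom Q.D φ → HA Δ φ → φ ∈ Q.Γ) := by
  obtain ⟨Δ, hΓΔ, hΔ⟩ := exists_satMax hdom hF hunp
  -- the names of the new domain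
  let D' : Set ℕ := {x | x ∈ D ∨ (x ∈ E ∧ (∀ d ∈ D, ¬ HA Δ (.eq (.var x) (.var d))) ∧
    (∀ y ∈ E, y < x → ¬ HA Δ (.eq (.var x) (.var y))))}
  have hD'E : D' ⊆ E := by
    rintro x (hx | hx)
    · exact hDE hx
    · exact hx.1
  have hrep : ∀ a ∈ E, ∃ b ∈ D', HA Δ (.eq (.var b) (.var a)) := by
    intro a ha
    by_cases h : ∃ d ∈ D, HA Δ (.eq (.var a) (.var d))
    · obtain ⟨d, hd, h⟩ := h
      exact ⟨d, Or.inl hd, h.symm⟩
    · push Not at h
      classical
      let p : ℕ → Prop := fun y => y ∈ E ∧ HA Δ (.eq (.var a) (.var y))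
      have hp : ∃ y, p y := ⟨a, ha, .eqRefl _⟩
      refine ⟨Nat.find hp, Or.inr ⟨(Nat.find_spec hp).1, ?_, ?_⟩, (Nat.find_spec hp).2.symm⟩
      · intro d hd hn
        exact h d hd (HA.trans (Nat.find_spec hp).2 hn)
      · intro y hy hlt hn
        exact Nat.find_min hp hlt ⟨hy, HA.trans (Nat.find_spec hp).2 hn⟩
  have hbot : ¬ HA Δ .bot := fun h => hΔ.unprov (.botE h)
  have hdist : ∀ x ∈ D', ∀ y ∈ D', HA Δ (.eq (.var x) (.var y)) → x = y := by
    rintro x (hx | hx) y (hy | hy) h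
    · by_contra hne
      exact hbot (.impE ((hD x hx y hy hne).mono hΓΔ) h)
    · exact absurd h.symm (hy.2.1 x hx)
    · exact absurd h (hx.2.1 y hy)
    · rcases lt_trichotomy x y with h1 | h1 | h1
      · exact absurd h.symm (hy.2.2 x hx.1 h1)
      · exact h1
      · exact absurd h (hx.2.2 y hy.1 h1)
  have hor : ∀ φ χ, InDom E φ → InDom E χ → HA Δ (.or φ χ) → HA Δ φ ∨ HA Δ χ := by
    intro φ χ hφ hχ h
    by_contra hn
    push Not at hn
    exact hΔ.unprov (.orE h (.impE ((hΔ.imp_of_not hφ hn.1).weak _) HA.h0)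
      (.impE ((hΔ.imp_of_not hχ hn.2).weak _) HA.h0))
  have hinst : ∀ (φ : Fm) (x : ℕ), InDom E (.ex φ) → x ∈ E → InDom E (φ.subst (inst (.var x))) := by
    intro φ x hφ hx y hy
    obtain ⟨z, hz, hz'⟩ := Fm.free_subst hy
    cases z with
    | zero => simp only [inst, Tm.Free] at hz'; rwa [← hz']
    | succ z => simp only [inst, Tm.Free] at hz'; rw [← hz']; exact hφ z hz
  have hinst' : ∀ (φ : Fm) (x : ℕ), InDom D' (.ex φ) → x ∈ D' →
      InDom D' (φ.subst (inst (.var x))) := by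
    intro φ x hφ hx y hy
    obtain ⟨z, hz, hz'⟩ := Fm.free_subst hy
    cases z with
    | zero => simp only [inst, Tm.Free] at hz'; rwa [← hz']
    | succ z => simp only [inst, Tm.Free] at hz'; rw [← hz']; exact hφ z hz
  have hwit : ∀ φ : Fm, InDom E (.ex φ) → HA Δ (.ex φ) →
      ∃ b ∈ D', HA Δ (φ.subst (inst (.var b))) := by
    intro φ hφ h
    obtain ⟨x, hx, hx'⟩ := hΔ.wit φ (hΔ.ded hφ h)
    obtain ⟨b, hb, hb'⟩ := hrep x hx
    exact ⟨b, hb, HA.inst_eq φ hb'.symm (.hyp hx')⟩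
  let Q : PNode :=
    { D := D'
      Γ := {φ | φ ∈ Δ ∧ InDom D' φ}
      coinf := hE.mono (Set.compl_subset_compl.2 hD'E)
      dom := fun φ h => h.2
      ded := fun φ h hp => ⟨hΔ.ded (h.mono hD'E) (hp.mono fun _ h => h.1), h⟩
      cons := fun h => hbot (.hyp h.1)
      prime := by
        intro φ χ h
        have h1 : InDom D' φ := fun x hx => h.2 x (Or.inl hx)
        have h2 : InDom D' χ := fun x hx => h.2 x (Or.inr hx)
        exact (hor φ χ (h1.mono hD'E) (h2.mono hD'E) (.hyp h.1)).imp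
          (fun hp => ⟨hΔ.ded (h1.mono hD'E) hp, h1⟩) (fun hp => ⟨hΔ.ded (h2.mono hD'E) hp, h2⟩)
      wit := by
        intro φ h
        obtain ⟨b, hb, hb'⟩ := hwit φ (h.2.mono hD'E) (.hyp h.1)
        have h3 := hinst' φ b h.2 hb
        exact ⟨b, hb, hΔ.ded (h3.mono hD'E) hb', h3⟩
      dist := fun x hx y hy h => hdist x hx y hy (.hyp h.1) }
  have hQΔ : Q.Γ ⊆ Δ := fun φ h => h.1
  -- the truth lemma for classical satisfaction
  have htruth : ∀ (θ : Fm) (e : ℕ → D'), Q.str.Sat θ e ↔ HA Δ (tr ψ (θ.subst (asg e))) := by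
    intro θ
    induction θ with
    | bot => exact fun e => ⟨fun h => h.elim, fun h => hΔ.unprov h⟩
    | eq s t =>
      intro e
      constructor
      · intro h
        exact HA.nn_intro (.hyp (hQΔ ((Q.eval_eq_iff e s t).1 h)))
      · intro h
        refine (Q.eval_eq_iff e s t).2 ?_
        have h1 : InDom D' (Fm.subst (asg e) (.eq s t)) := InDom.assign e _
        refine ⟨?_, h1⟩
        by_contra hn
        refine hΔ.unprov (.impE h (hΔ.imp_of_not (h1.mono hD'E) ?_))
        exact fun hp => hn (hΔ.ded (h1.mono hD'E) hp)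
    | and a b iha ihb =>
      intro e
      constructor
      · intro h
        exact .andI ((iha e).1 h.1) ((ihb e).1 h.2)
      · intro h
        exact ⟨(iha e).2 (.andE₁ h), (ihb e).2 (.andE₂ h)⟩
    | or a b iha ihb =>
      intro e
      have ha : InDom E (tr ψ (a.subst (asg e))) := hψ.tr ((InDom.assign e a).mono hD'E)
      have hb : InDom E (tr ψ (b.subst (asg e))) := hψ.tr ((InDom.assign e b).mono hD'E)
      constructor
      · rintro (h | h)
        · exact HA.nn_intro (.orI₁ ((iha e).1 h))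
        · exact HA.nn_intro (.orI₂ ((ihb e).1 h))
      · intro h
        by_contra hn
        have h1 : ¬ HA Δ (tr ψ (a.subst (asg e))) := fun hp => hn (Or.inl ((iha e).2 hp))
        have h2 : ¬ HA Δ (tr ψ (b.subst (asg e))) := fun hp => hn (Or.inr ((ihb e).2 hp))
        exact hΔ.unprov (.impE h (.impI (.orE HA.h0
          (.impE (((hΔ.imp_of_not ha h1).weak _).weak _) HA.h0)
          (.impE (((hΔ.imp_of_not hb h2).weak _).weak _) HA.h0))))
    | imp a b iha ihb =>
      intro e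
      have ha : InDom E (tr ψ (a.subst (asg e))) := hψ.tr ((InDom.assign e a).mono hD'E)
      constructor
      · intro h
        by_cases hp : HA Δ (tr ψ (a.subst (asg e)))
        · exact .impI (((ihb e).1 (h ((iha e).2 hp))).weak _)
        · exact .impI (HA.tr_of _ (.impE ((hΔ.imp_of_not ha hp).weak _) HA.h0))
      · intro h hs
        exact (ihb e).2 (.impE h ((iha e).1 hs))
    | all a ih =>
      intro e
      let φ : Fm := tr ψ.shift (a.subst (up (asg e)))
      have hφ : ∀ b : D', φ.subst (inst (.var b)) = tr ψ (a.subst (asg (scons b e))) := by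
        intro b
        show (tr ψ.shift (a.subst (up (asg e)))).subst (inst (.var b)) = _
        rw [tr_subst, Fm.shift_inst]
        exact congrArg (tr ψ) (inst_assign a e b)
      have hφE : InDom E (.all φ) :=
        hψ.tr ((InDom.assign e (.all a)).mono hD'E)
      constructor
      · intro h
        have h' : ∀ b : D', HA Δ (φ.subst (inst (.var b))) := by
          intro b; rw [hφ]; exact (ih _).1 (h b)
        show HA Δ (.all φ)
        let χ : Fm := .ex (.imp φ ψ.shift)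
        have hχE : InDom E χ := by
          rintro x (hx | hx)
          · exact hφE x hx
          · exact hψ x (shift_free hx)
        by_cases hχ : HA Δ χ
        · obtain ⟨b, hb, hb'⟩ := hwit _ hχE hχ
          simp only [Fm.subst, Fm.shift_inst] at hb'
          exact absurd (HA.impE hb' (h' ⟨b, hb⟩)) hΔ.unprov
        · have h1 : HA Δ (.imp χ ψ) := hΔ.imp_of_not hχE hχ
          refine .allI (HA.tr_stable _ _ (.impI ?_))
          have h2 := h1.subst shiftVar
          refine .impE (h2.weak _) ?_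
          refine .exI (.var 0) ?_
          rw [up_shift_inst_zero]
          exact HA.h0
      · intro h b
        refine (ih _).2 ?_
        rw [← hφ]
        exact .allE _ h
    | ex a ih =>
      intro e
      let φ : Fm := tr ψ.shift (a.subst (up (asg e)))
      have hφ : ∀ b : D', φ.subst (inst (.var b)) = tr ψ (a.subst (asg (scons b e))) := by
        intro b
        show (tr ψ.shift (a.subst (up (asg e)))).subst (inst (.var b)) = _
        rw [tr_subst, Fm.shift_inst]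
        exact congrArg (tr ψ) (inst_assign a e b)
      have hφE : InDom E (.ex φ) :=
        hψ.tr (a := .all (a.subst (up (asg e)))) ((InDom.assign e (.all a)).mono hD'E)
      constructor
      · rintro ⟨b, hb⟩
        refine HA.nn_intro (.exI (.var b) ?_)
        rw [show tr ψ.shift (a.subst (up (asg e))) = φ from rfl, hφ]
        exact (ih _).1 hb
      · intro h
        by_contra hn
        have h1 : ¬ HA Δ (.ex φ) := by
          intro hp
          obtain ⟨b, hb, hb'⟩ := hwit _ hφE hp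
          refine hn ⟨⟨b, hb⟩, (ih _).2 ?_⟩
          rw [← hφ]
          exact hb'
        exact hΔ.unprov (.impE h (hΔ.imp_of_not hφE h1))
  refine ⟨Q, Δ, ?_, fun x hx => Or.inl hx, hD'E, hΓΔ, hQΔ, hΔ.unprov, hrep, ?_⟩
  · intro α hα e
    exact (htruth α e).2 (HA.tr_ax _ _ (hα.subst _))
  · intro φ hφ hp
    exact ⟨hΔ.ded (hφ.mono hD'E) hp, hφ⟩

end Pool.Agent.Lib.MP_403d16_lc
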