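import Pool.Agent.Lib.MP_403d16_lc.Canonical

/-! The truth lemma for the canonical Kripke model and strong completeness. -/

namespace Pool.Agent.Lib.MP_403d16_lc

open PNode

theorem exists_half {S : Set ℕ} (hS : S.Infinite) :
    ∃ T ⊆ S, T.Infinite ∧ (S \ T).Infinite := by
  let f := hS.natEmbedding
  have hf : Function.Injective fun n => ((f n : S) : ℕ) :=
    fun a b h => f.injective (Subtype.ext h)
  refine ⟨Set.range fun n => ((f (2 * n) : S) : ℕ), ?_, ?_, ?_⟩
  · rintro _ ⟨n, rfl⟩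
    exact (f (2 * n)).2
  · refine Set.infinite_range_of_injective ?_
    intro a b h
    have := hf h
    omega
  · refine (Set.infinite_range_of_injective (f := fun n => ((f (2 * n + 1) : S) : ℕ)) ?_).mono ?_
    · intro a b h
      have := hf h
      omega
    · rintro _ ⟨n, rfl⟩
      refine ⟨(f (2 * n + 1)).2, ?_⟩
      rintro ⟨m, hm⟩
      have := hf hm
      omega

theorem PNode.distinct (P : PNode) {x y : ℕ} (hx : x ∈ P.D) (hy : y ∈ P.D) (hne : x ≠ y) :
    HA P.Γ (.imp (.eq (.var x) (.var y)) .bot) := by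
  have hdom : InDom P.D (.or (.eq (.var x) (.var y)) (.imp (.eq (.var x) (.var y)) .bot)) := by
    intro z hz
    simp only [Fm.Free, Tm.Free] at hz
    rcases hz with (rfl | rfl) | ((rfl | rfl) | h)
    · exact hx
    · exact hy
    · exact hx
    · exact hy
    · exact h.elim
  rcases P.prime _ _ (P.ded _ hdom (HA.eq_dec _ _)) with h | h
  · exact absurd (P.dist x hx y hy h) hne
  · exact .hyp h

theorem PNode.extend (P : PNode) (Γ' : Set Fm) (hΓ' : P.Γ ⊆ Γ')
    (hdom : ∀ φ ∈ Γ', InDom P.D φ) :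
    ∃ E : Set ℕ, P.D ⊆ E ∧ (E \ P.D).Infinite ∧
      ∀ ψ, InDom E ψ → ¬ HA Γ' ψ → ∃ (Q : PNode) (Δ : Set Fm), Q.str.IsPA ∧ P ≤ Q ∧
        Γ' ⊆ Q.Γ ∧ Q.Γ ⊆ Δ ∧ ¬ HA Δ ψ ∧ ∀ a ∈ E, ∃ b ∈ Q.D, HA Δ (.eq (.var b) (.var a)) := by
  obtain ⟨T, hT1, hT2, hT3⟩ := exists_half P.coinf
  have hTD : (P.D ∪ T) \ P.D = T := by
    ext x
    constructor
    · rintro ⟨h | h, h'⟩
      · exact absurd h h'
      · exact h
    · intro h
      exact ⟨Or.inr h, hT1 h⟩
  refine ⟨P.D ∪ T, Set.subset_union_left, by rw [hTD]; exact hT2, ?_⟩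
  intro ψ hψ hunp
  obtain ⟨Q, Δ, h1, h2, h3, h4, h5, h6, h7, h8⟩ := exists_node (D := P.D) (E := P.D ∪ T) (Γ := Γ')
    (ψ := ψ) Set.subset_union_left
    (hT3.mono (by
      rintro x ⟨hx, hx'⟩ (h | h)
      · exact hx h
      · exact hx' h))
    (fun φ hφ => (hdom φ hφ).mono Set.subset_union_left)
    (hT2.mono (by
      intro x hx
      exact ⟨Or.inr hx, fun γ hγ hγx => hT1 hx (hdom γ hγ x hγx)⟩))
    hψ hunp
    (fun x hx y hy hne => (P.distinct hx hy hne).mono hΓ')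
  have hsub : Γ' ⊆ Q.Γ := fun φ hφ => h8 φ ((hdom φ hφ).mono h2) (.hyp (h4 hφ))
  exact ⟨Q, Δ, h1, ⟨h2, hΓ'.trans hsub⟩, hsub, h5, h6, h7⟩

theorem push_asg {P Q : canon.Node} (h : P ≤ Q) (e : ℕ → canon.dom P) :
    asg (canon.push h e) = asg (D := P.1.D) e := rfl

/-- The truth lemma. -/
theorem truth (φ : Fm) : ∀ (P : canon.Node) (e : ℕ → canon.dom P),
    canon.Forces φ P e ↔ φ.subst (asg (D := P.1.D) e) ∈ P.1.Γ := by
  induction φ with
  | bot =>
    intro P e
    exact ⟨fun h => h.elim, fun h => absurd h P.1.cons⟩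
  | eq s t => intro P e; exact P.1.eval_eq_iff e s t
  | and a b iha ihb =>
    intro P e
    have h1 := InDom.assign (D := P.1.D) e a
    have h2 := InDom.assign (D := P.1.D) e b
    constructor
    · intro h
      exact P.1.ded _ (fun x hx => hx.elim (h1 x) (h2 x))
        (.andI (.hyp ((iha P e).1 h.1)) (.hyp ((ihb P e).1 h.2)))
    · intro h
      exact ⟨(iha P e).2 (P.1.ded _ h1 (.andE₁ (.hyp h))),
        (ihb P e).2 (P.1.ded _ h2 (.andE₂ (.hyp h)))⟩
  | or a b iha ihb =>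
    intro P e
    have h1 := InDom.assign (D := P.1.D) e a
    have h2 := InDom.assign (D := P.1.D) e b
    constructor
    · rintro (h | h)
      · exact P.1.ded _ (fun x hx => hx.elim (h1 x) (h2 x)) (.orI₁ (.hyp ((iha P e).1 h)))
      · exact P.1.ded _ (fun x hx => hx.elim (h1 x) (h2 x)) (.orI₂ (.hyp ((ihb P e).1 h)))
    · intro h
      exact (P.1.prime _ _ h).imp (iha P e).2 (ihb P e).2
  | imp a b iha ihb =>
    intro P e
    constructor
    · intro h
      by_contra hn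
      have hdom : ∀ φ ∈ insert (a.subst (asg (D := P.1.D) e)) P.1.Γ, InDom P.1.D φ := by
        rintro φ (rfl | hφ)
        · exact InDom.assign (D := P.1.D) e a
        · exact P.1.dom φ hφ
      obtain ⟨E, hE1, hE2, hE3⟩ := P.1.extend _ (Set.subset_insert _ _) hdom
      obtain ⟨Q, Δ, h1, h2, h3, h4, h5, h6⟩ := hE3 (b.subst (asg (D := P.1.D) e))
        ((InDom.assign (D := P.1.D) e b).mono hE1)
        (fun hp => hn (P.1.ded _ (InDom.assign (D := P.1.D) e (.imp a b)) (.impI hp)))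
      have h7 := h ⟨Q, h1⟩ h2 ((iha ⟨Q, h1⟩ _).2 (h3 (Set.mem_insert _ _)))
      exact h5 (.hyp (h4 ((ihb ⟨Q, h1⟩ _).1 h7)))
    · intro h Q hQ ha
      refine (ihb Q _).2 (Q.1.ded _ (InDom.assign (D := Q.1.D) _ b) ?_)
      exact .impE (.hyp (hQ.2 h)) (.hyp ((iha Q _).1 ha))
  | all a ih =>
    intro P e
    constructor
    · intro h
      by_contra hn
      obtain ⟨E, hE1, hE2, hE3⟩ := P.1.extend P.1.Γ subset_rfl P.1.dom
      obtain ⟨x, hx1, hx2⟩ := hE2.nonempty
      have hdom := InDom.assign (D := P.1.D) e (.all a)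
      obtain ⟨Q, Δ, h1, h2, h3, h4, h5, h6⟩ :=
        hE3 ((a.subst (up (asg (D := P.1.D) e))).subst (inst (.var x))) (by
          intro y hy
          obtain ⟨z, hz, hz'⟩ := Fm.free_subst hy
          cases z with
          | zero => simp only [inst, Tm.Free] at hz'; rwa [← hz']
          | succ z => simp only [inst, Tm.Free] at hz'; rw [← hz']; exact hE1 (hdom z hz))
          (by
            intro hp
            refine hn (P.1.ded _ hdom (HA.gen_fresh (x := x) ?_ ?_ hp))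
            · exact fun γ hγ hγx => hx2 (P.1.dom γ hγ x hγx)
            · exact fun hh => hx2 (hdom x hh))
      obtain ⟨b, hb, hb'⟩ := h6 x hx1
      have h7 := (ih ⟨Q, h1⟩ _).1 (h ⟨Q, h1⟩ h2 ⟨b, hb⟩)
      have h8 := inst_assign (M := Q.D) a (canon.push (k := P) (l := ⟨Q, h1⟩) h2 e) ⟨b, hb⟩
      refine h5 (HA.inst_eq _ hb' (.hyp (h4 ?_)))
      exact h8 ▸ h7
    · intro h Q hQ b
      refine (ih Q _).2 (Q.1.ded _ (InDom.assign (D := Q.1.D) _ a) ?_)
      have h1 := HA.allE (.var b.1) (.hyp (hQ.2 h) : HA Q.1.Γ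
        (.all (a.subst (up (asg (D := P.1.D) e)))))
      have h8 := inst_assign (M := Q.1.D) a (canon.push (k := P) (l := Q) hQ e) b
      exact h8 ▸ h1
  | ex a ih =>
    intro P e
    constructor
    · rintro ⟨b, hb⟩
      have h1 := (ih P _).1 hb
      refine P.1.ded _ (InDom.assign (D := P.1.D) e (.ex a)) (.exI (.var b.1) ?_)
      have h8 := inst_assign (M := P.1.D) a e b
      exact h8 ▸ .hyp h1
    · intro h
      obtain ⟨x, hx, hx'⟩ := P.1.wit _ h
      refine ⟨⟨x, hx⟩, (ih P _).2 ?_⟩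
      have h8 := inst_assign (M := P.1.D) a e ⟨x, hx⟩
      exact h8 ▸ hx'

theorem canon_isHA : canon.IsHA := by
  intro φ hφ P e
  exact (truth φ P e).2 (P.1.ded _ (InDom.assign (D := P.1.D) e φ) (.ax (hφ.subst _)))

theorem canon_locallyPA : canon.LocallyPA := fun P => P.2

/-- Strong completeness, contrapositive form. -/
theorem exists_counter (Γ : Set Fm) (φ : Fm) (h : ¬ HA Γ φ) :
    ∃ (P : canon.Node) (e : ℕ → canon.dom P), (∀ ψ ∈ Γ, canon.Forces ψ P e) ∧
      ¬ canon.Forces φ P e := by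
  let σ : ℕ → Tm := fun n => .var (3 * n)
  let E : Set ℕ := {n | n % 3 ≠ 2}
  have hσE : ∀ χ : Fm, InDom E (χ.subst σ) := by
    intro χ y hy
    obtain ⟨x, _, hx⟩ := Fm.free_subst hy
    simp only [σ, Tm.Free] at hx
    rw [← hx]
    simp [E]
  have hunp : ¬ HA (Fm.subst σ '' Γ) (φ.subst σ) := by
    intro hp
    have h1 := hp.subst fun m => .var (m / 3)
    have h2 : comp σ (fun m => .var (m / 3)) = Tm.var := by
      funext n
      simp [comp, σ, Tm.subst]
    rw [Fm.subst_subst, h2, Fm.subst_var] at h1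
    refine h (h1.mono ?_)
    rintro _ ⟨_, ⟨γ, hγ, rfl⟩, rfl⟩
    rw [Fm.subst_subst, h2, Fm.subst_var]
    exact hγ
  obtain ⟨Q, Δ, h1, h2, h3, h4, h5, h6, h7, h8⟩ := exists_node (D := ∅) (E := E)
    (Γ := Fm.subst σ '' Γ) (ψ := φ.subst σ) (Set.empty_subset _)
    (Set.infinite_of_injective_forall_mem (f := fun n : ℕ => 3 * n + 2)
      (fun a b hab => by
        have : 3 * a + 2 = 3 * b + 2 := hab
        omega)
      (fun n => by
        show ¬ ((3 * n + 2) % 3 ≠ 2)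
        omega))
    (by rintro _ ⟨γ, _, rfl⟩; exact hσE γ)
    (Set.infinite_of_injective_forall_mem (f := fun n : ℕ => 3 * n + 1)
      (fun a b hab => by
        have : 3 * a + 1 = 3 * b + 1 := hab
        omega)
      (fun n => by
        refine ⟨?_, ?_⟩
        · show (3 * n + 1) % 3 ≠ 2
          omega
        · rintro _ ⟨γ, _, rfl⟩ hfree
          obtain ⟨x, _, hx⟩ := Fm.free_subst hfree
          simp only [σ, Tm.Free] at hx
          omega))
    (hσE φ) hunp (fun x hx => hx.elim)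
  choose e he using fun n : ℕ => h7 (3 * n) (by show (3 * n) % 3 ≠ 2; omega)
  let e' : ℕ → Q.D := fun n => ⟨e n, (he n).1⟩
  have heq : ∀ n, HA Δ (.eq (asg e' n) (σ n)) := fun n => (he n).2
  refine ⟨⟨Q, h1⟩, e', ?_, ?_⟩
  · intro ψ hψ
    refine (truth ψ ⟨Q, h1⟩ e').2 (h8 _ (InDom.assign (D := Q.D) e' ψ) ?_)
    exact HA.subst_eq ψ σ (asg e') (fun n => (heq n).symm)
      (.hyp (h4 (Set.mem_image_of_mem _ hψ)))
  · intro hf
    have h9 := (truth φ ⟨Q, h1⟩ e').1 hf
    exact h6 (HA.subst_eq φ (asg e') σ heq (.hyp (h5 h9)))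

end Pool.Agent.Lib.MP_403d16_lc
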