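import Mathlib.Data.Set.Basic
import Mathlib.Order.Basic
import Mathlib.Tactic.DeriveCountable

/-!
# Heyting arithmetic, Kripke models, and locally PA Kripke models: the definitions

First-order language of arithmetic with equality, `0`, successor, `+` and `·`.
Variables are de Bruijn indices, so free variables are also natural numbers.
-/

namespace Pool.Agent.Lib.MP_403d16_lc

/-- Terms of the language of arithmetic. `var n` is the variable with de Bruijn index `n`. -/
inductive Tm : Type
  | var : ℕ → Tm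
  | zero : Tm
  | succ : Tm → Tm
  | add : Tm → Tm → Tm
  | mul : Tm → Tm → Tm
  deriving Countable

/-- First-order formulas of the language of arithmetic, with all intuitionistic connectives and
both quantifiers primitive. In `all φ` and `ex φ` the index `0` of `φ` is bound. -/
inductive Fm : Type
  | bot : Fm
  | eq : Tm → Tm → Fm
  | and : Fm → Fm → Fm
  | or : Fm → Fm → Fm
  | imp : Fm → Fm → Fm
  | all : Fm → Fm
  | ex : Fm → Fm
  deriving Countable

/-- Simultaneous substitution of terms for the variables of a term. -/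
def Tm.subst (σ : ℕ → Tm) : Tm → Tm
  | .var n => σ n
  | .zero => .zero
  | .succ t => .succ (t.subst σ)
  | .add s t => .add (s.subst σ) (t.subst σ)
  | .mul s t => .mul (s.subst σ) (t.subst σ)

/-- The substitution renaming each variable `n` to `n + 1`. -/
def shiftVar (n : ℕ) : Tm := .var (n + 1)

/-- Push a substitution under a binder: index `0` is kept. -/
def up (σ : ℕ → Tm) : ℕ → Tm
  | 0 => .var 0
  | n + 1 => (σ n).subst shiftVar

/-- Capture-avoiding simultaneous substitution in a formula. -/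
def Fm.subst (σ : ℕ → Tm) : Fm → Fm
  | .bot => .bot
  | .eq s t => .eq (s.subst σ) (t.subst σ)
  | .and φ ψ => .and (φ.subst σ) (ψ.subst σ)
  | .or φ ψ => .or (φ.subst σ) (ψ.subst σ)
  | .imp φ ψ => .imp (φ.subst σ) (ψ.subst σ)
  | .all φ => .all (φ.subst (up σ))
  | .ex φ => .ex (φ.subst (up σ))

/-- Add `1` to all free variables of a formula (so that index `0` becomes fresh). -/
def Fm.shift (φ : Fm) : Fm := φ.subst shiftVar

/-- The substitution that removes index `0`, putting `t` for it. -/
def inst (t : Tm) : ℕ → Tm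
  | 0 => t
  | n + 1 => .var n

/-- The substitution that puts `x + 1` (successor) for the variable `x = var 0` and keeps the
other variables. -/
def stepSubst : ℕ → Tm
  | 0 => .succ (.var 0)
  | n + 1 => .var (n + 1)

/-- The usual axioms of `PA` (equivalently of `HA`): the successor axioms, the recursion equations
of addition and multiplication, and induction for every formula, parameters allowed. -/
inductive HAx : Fm → Prop
  | succ_ne_zero : HAx (.all (.imp (.eq (.succ (.var 0)) .zero) .bot))
  | succ_inj :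
      HAx (.all (.all (.imp (.eq (.succ (.var 1)) (.succ (.var 0))) (.eq (.var 1) (.var 0)))))
  | add_zero : HAx (.all (.eq (.add (.var 0) .zero) (.var 0)))
  | add_succ : HAx (.all (.all
      (.eq (.add (.var 1) (.succ (.var 0))) (.succ (.add (.var 1) (.var 0))))))
  | mul_zero : HAx (.all (.eq (.mul (.var 0) .zero) .zero))
  | mul_succ : HAx (.all (.all
      (.eq (.mul (.var 1) (.succ (.var 0))) (.add (.mul (.var 1) (.var 0)) (.var 1)))))
  | ind (φ : Fm) :
      HAx (.imp (φ.subst (inst .zero)) (.imp (.all (.imp φ (φ.subst stepSubst))) (.all φ)))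

/-- `Γ ⊢ φ` in Heyting arithmetic: intuitionistic natural deduction with equality, from the
hypotheses `Γ` (whose free variables are treated as constants) and the axioms `HAx`. -/
inductive HA : Set Fm → Fm → Prop
  | ax {Γ : Set Fm} {φ : Fm} : HAx φ → HA Γ φ
  | hyp {Γ : Set Fm} {φ : Fm} : φ ∈ Γ → HA Γ φ
  | botE {Γ : Set Fm} {φ : Fm} : HA Γ .bot → HA Γ φ
  | andI {Γ : Set Fm} {φ ψ : Fm} : HA Γ φ → HA Γ ψ → HA Γ (.and φ ψ)
  | andE₁ {Γ : Set Fm} {φ ψ : Fm} : HA Γ (.and φ ψ) → HA Γ φ
  | andE₂ {Γ : Set Fm} {φ ψ : Fm} : HA Γ (.and φ ψ) → HA Γ ψ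
  | orI₁ {Γ : Set Fm} {φ ψ : Fm} : HA Γ φ → HA Γ (.or φ ψ)
  | orI₂ {Γ : Set Fm} {φ ψ : Fm} : HA Γ ψ → HA Γ (.or φ ψ)
  | orE {Γ : Set Fm} {φ ψ χ : Fm} :
      HA Γ (.or φ ψ) → HA (insert φ Γ) χ → HA (insert ψ Γ) χ → HA Γ χ
  | impI {Γ : Set Fm} {φ ψ : Fm} : HA (insert φ Γ) ψ → HA Γ (.imp φ ψ)
  | impE {Γ : Set Fm} {φ ψ : Fm} : HA Γ (.imp φ ψ) → HA Γ φ → HA Γ ψ
  | allI {Γ : Set Fm} {φ : Fm} : HA (Fm.shift '' Γ) φ → HA Γ (.all φ)
  | allE {Γ : Set Fm} {φ : Fm} (t : Tm) : HA Γ (.all φ) → HA Γ (φ.subst (inst t))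
  | exI {Γ : Set Fm} {φ : Fm} (t : Tm) : HA Γ (φ.subst (inst t)) → HA Γ (.ex φ)
  | exE {Γ : Set Fm} {φ ψ : Fm} :
      HA Γ (.ex φ) → HA (insert φ (Fm.shift '' Γ)) ψ.shift → HA Γ ψ
  | eqRefl {Γ : Set Fm} (t : Tm) : HA Γ (.eq t t)
  | eqSubst {Γ : Set Fm} {s t : Tm} (φ : Fm) :
      HA Γ (.eq s t) → HA Γ (φ.subst (inst s)) → HA Γ (φ.subst (inst t))

/-- A (classical) structure for the language of arithmetic on `M`. -/
structure ArithStr (M : Type*) where
  zero : M
  succ : M → M
  add : M → M → M
  mul : M → M → M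

/-- Put `a` in front of an assignment: the value of index `0` becomes `a`. -/
def scons {M : Type*} (a : M) (e : ℕ → M) : ℕ → M
  | 0 => a
  | n + 1 => e n

/-- The value of a term in a structure under an assignment. -/
def Tm.eval {M : Type*} (S : ArithStr M) (e : ℕ → M) : Tm → M
  | .var n => e n
  | .zero => S.zero
  | .succ t => S.succ (t.eval S e)
  | .add s t => S.add (s.eval S e) (t.eval S e)
  | .mul s t => S.mul (s.eval S e) (t.eval S e)

/-- Classical (Tarski) satisfaction of a formula in a structure under an assignment. -/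
def ArithStr.Sat {M : Type*} (S : ArithStr M) : Fm → (ℕ → M) → Prop
  | .bot, _ => False
  | .eq s t, e => s.eval S e = t.eval S e
  | .and φ ψ, e => S.Sat φ e ∧ S.Sat ψ e
  | .or φ ψ, e => S.Sat φ e ∨ S.Sat ψ e
  | .imp φ ψ, e => S.Sat φ e → S.Sat ψ e
  | .all φ, e => ∀ a : M, S.Sat φ (scons a e)
  | .ex φ, e => ∃ a : M, S.Sat φ (scons a e)

/-- A structure is a classical model of `PA` if it satisfies all the axioms, under all
assignments. -/
def ArithStr.IsPA {M : Type*} (S : ArithStr M) : Prop :=
  ∀ φ : Fm, HAx φ → ∀ e : ℕ → M, S.Sat φ e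

/-- A Kripke model for the language of arithmetic: a partial order of nodes and, at each node `k`,
a classical structure with domain `dom k` (a set of elements of `U`), such that for `k ≤ l` the
structure at `k` is a substructure of the structure at `l`. -/
structure KripkeModel where
  /-- the nodes -/
  Node : Type
  /-- the order of the nodes -/
  order : PartialOrder Node
  /-- the elements of all domains -/
  U : Type
  /-- the domain at a node -/
  dom : Node → Set U
  /-- the structure at a node -/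
  str : ∀ k, ArithStr (dom k)
  /-- domains grow -/
  dom_mono : ∀ {k l : Node}, k ≤ l → dom k ⊆ dom l
  zero_eq : ∀ {k l : Node}, k ≤ l → ((str k).zero : U) = (str l).zero
  succ_eq : ∀ {k l : Node} (h : k ≤ l) (a : dom k),
    ((str k).succ a : U) = (str l).succ ⟨a, dom_mono h a.2⟩
  add_eq : ∀ {k l : Node} (h : k ≤ l) (a b : dom k),
    ((str k).add a b : U) = (str l).add ⟨a, dom_mono h a.2⟩ ⟨b, dom_mono h b.2⟩
  mul_eq : ∀ {k l : Node} (h : k ≤ l) (a b : dom k),
    ((str k).mul a b : U) = (str l).mul ⟨a, dom_mono h a.2⟩ ⟨b, dom_mono h b.2⟩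

namespace KripkeModel

instance (K : KripkeModel) : PartialOrder K.Node := K.order

/-- Regard an assignment at `k` as an assignment at a later node `l`. -/
def push (K : KripkeModel) {k l : K.Node} (h : k ≤ l) (e : ℕ → K.dom k) : ℕ → K.dom l :=
  fun n => ⟨e n, K.dom_mono h (e n).2⟩

/-- The forcing relation `k ⊩ φ[e]`. -/
def Forces (K : KripkeModel) : Fm → (k : K.Node) → (ℕ → K.dom k) → Prop
  | .bot, _, _ => False
  | .eq s t, k, e => s.eval (K.str k) e = t.eval (K.str k) e
  | .and φ ψ, k, e => K.Forces φ k e ∧ K.Forces ψ k e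
  | .or φ ψ, k, e => K.Forces φ k e ∨ K.Forces ψ k e
  | .imp φ ψ, k, e => ∀ (l : K.Node) (h : k ≤ l),
      K.Forces φ l (K.push h e) → K.Forces ψ l (K.push h e)
  | .all φ, k, e => ∀ (l : K.Node) (h : k ≤ l) (a : K.dom l),
      K.Forces φ l (scons a (K.push h e))
  | .ex φ, k, e => ∃ a : K.dom k, K.Forces φ k (scons a e)

/-- `K ⊩ φ`: every node forces `φ` (under every assignment, if `φ` has free variables). -/
def Valid (K : KripkeModel) (φ : Fm) : Prop :=
  ∀ (k : K.Node) (e : ℕ → K.dom k), K.Forces φ k e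

/-- `K` is a Kripke model of `HA`: it forces every axiom. -/
def IsHA (K : KripkeModel) : Prop := ∀ φ : Fm, HAx φ → K.Valid φ

/-- `K` is locally `PA`: the structure at every node is a classical model of `PA`. -/
def LocallyPA (K : KripkeModel) : Prop := ∀ k : K.Node, (K.str k).IsPA

end KripkeModel

end Pool.Agent.Lib.MP_403d16_lc
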