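import Pool.Agent.Lib.MP_403d16_lc.Sound

/-! Derived rules of `HA`, decidability of equality, and the translation relative to a formula. -/

namespace Pool.Agent.Lib.MP_403d16_lc

@[simp] theorem Tm.shift_inst (s t : Tm) : (s.subst shiftVar).subst (inst t) = s := by
  rw [Tm.subst_subst, comp_shift_inst, Tm.subst_var]

theorem up_shift_inst_zero (φ : Fm) :
    (φ.subst (up shiftVar)).subst (inst (.var 0)) = φ := by
  rw [Fm.subst_subst]
  have : comp (up shiftVar) (inst (.var 0)) = Tm.var := by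
    funext n; cases n <;> rfl
  rw [this, Fm.subst_var]

namespace HA

variable {Γ : Set Fm} {φ ψ χ : Fm} {s t u s' t' : Tm}

theorem cut (h1 : HA Γ φ) (h2 : HA (insert φ Γ) ψ) : HA Γ ψ := impE (impI h2) h1

theorem weak (χ : Fm) (h : HA Γ φ) : HA (insert χ Γ) φ := h.mono (Set.subset_insert _ _)

theorem h0 : HA (insert φ Γ) φ := .hyp (Set.mem_insert _ _)

theorem h1 : HA (insert ψ (insert φ Γ)) φ := .hyp (by simp)

theorem h2 : HA (insert χ (insert ψ (insert φ Γ))) φ := .hyp (by simp)

theorem symm (h : HA Γ (.eq s t)) : HA Γ (.eq t s) := by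
  have h' : HA Γ (Fm.subst (inst s) (.eq (.var 0) (s.subst shiftVar))) := by
    simpa [Fm.subst, Tm.subst, inst] using HA.eqRefl (Γ := Γ) s
  have := HA.eqSubst _ h h'
  simpa [Fm.subst, Tm.subst, inst] using this

theorem trans (h : HA Γ (.eq s t)) (h' : HA Γ (.eq t u)) : HA Γ (.eq s u) := by
  have h'' : HA Γ (Fm.subst (inst t) (.eq (s.subst shiftVar) (.var 0))) := by
    simpa [Fm.subst, Tm.subst, inst] using h
  have := HA.eqSubst _ h' h''
  simpa [Fm.subst, Tm.subst, inst] using this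

theorem congr_succ (h : HA Γ (.eq s t)) : HA Γ (.eq (.succ s) (.succ t)) := by
  have h'' : HA Γ (Fm.subst (inst s) (.eq (.succ (s.subst shiftVar)) (.succ (.var 0)))) := by
    simpa [Fm.subst, Tm.subst, inst] using HA.eqRefl (Γ := Γ) (.succ s)
  have := HA.eqSubst _ h h''
  simpa [Fm.subst, Tm.subst, inst] using this

theorem congr_add (h : HA Γ (.eq s t)) (h' : HA Γ (.eq s' t')) :
    HA Γ (.eq (.add s s') (.add t t')) := by
  have h1 : HA Γ (Fm.subst (inst s)
      (.eq (.add (s.subst shiftVar) (s'.subst shiftVar)) (.add (.var 0) (s'.subst shiftVar)))) := by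
    simpa [Fm.subst, Tm.subst, inst] using HA.eqRefl (Γ := Γ) (.add s s')
  have h2 := HA.eqSubst _ h h1
  have h3 : HA Γ (Fm.subst (inst s')
      (.eq (.add (s.subst shiftVar) (s'.subst shiftVar)) (.add (t.subst shiftVar) (.var 0)))) := by
    simpa [Fm.subst, Tm.subst, inst] using h2
  have := HA.eqSubst _ h' h3
  simpa [Fm.subst, Tm.subst, inst] using this

theorem congr_mul (h : HA Γ (.eq s t)) (h' : HA Γ (.eq s' t')) :
    HA Γ (.eq (.mul s s') (.mul t t')) := by
  have h1 : HA Γ (Fm.subst (inst s)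
      (.eq (.mul (s.subst shiftVar) (s'.subst shiftVar)) (.mul (.var 0) (s'.subst shiftVar)))) := by
    simpa [Fm.subst, Tm.subst, inst] using HA.eqRefl (Γ := Γ) (.mul s s')
  have h2 := HA.eqSubst _ h h1
  have h3 : HA Γ (Fm.subst (inst s')
      (.eq (.mul (s.subst shiftVar) (s'.subst shiftVar)) (.mul (t.subst shiftVar) (.var 0)))) := by
    simpa [Fm.subst, Tm.subst, inst] using h2
  have := HA.eqSubst _ h' h3
  simpa [Fm.subst, Tm.subst, inst] using this

theorem succ_ne_zero' (h : HA Γ (.eq (.succ t) .zero)) : HA Γ .bot :=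
  impE (allE t (ax .succ_ne_zero)) h

theorem succ_inj' (h : HA Γ (.eq (.succ s) (.succ t))) : HA Γ (.eq s t) := by
  have := allE t (allE s (ax (Γ := Γ) .succ_inj))
  refine impE (φ := .eq (.succ s) (.succ t)) ?_ h
  simpa [Fm.subst, Tm.subst, up, inst] using this

/-- The induction rule. -/
theorem induct (φ : Fm) (hz : HA Γ (φ.subst (inst .zero)))
    (hs : HA (insert φ (Fm.shift '' Γ)) (φ.subst stepSubst)) : HA Γ (.all φ) :=
  impE (impE (ax (.ind φ)) hz) (allI (impI hs))

theorem eq_dec_aux : HA Γ (.all (.all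
    (.or (.eq (.var 1) (.var 0)) (.imp (.eq (.var 1) (.var 0)) .bot)))) := by
  apply induct
  · apply induct
    · exact orI₁ (eqRefl _)
    · exact orI₂ (impI (succ_ne_zero' (t := .var 0) (symm h0)))
  · apply induct
    · exact orI₂ (impI (succ_ne_zero' (t := .var 0) h0))
    · refine orE (φ := .eq (.var 1) (.var 0)) (ψ := .imp (.eq (.var 1) (.var 0)) .bot) ?_ ?_ ?_
      · refine allE (φ := .or (.eq (.var 2) (.var 0)) (.imp (.eq (.var 2) (.var 0)) .bot))
          (.var 0) (.hyp ?_)
        right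
        exact ⟨_, Set.mem_insert _ _, rfl⟩
      · exact orI₁ (congr_succ (s := .var 1) (t := .var 0) h0)
      · exact orI₂ (impI (impE h1 (succ_inj' (s := .var 1) (t := .var 0) h0)))

/-- Equality is decidable in `HA`. -/
theorem eq_dec (s t : Tm) : HA Γ (.or (.eq s t) (.imp (.eq s t) .bot)) := by
  have := allE t (allE s (eq_dec_aux (Γ := Γ)))
  simpa [Fm.subst, Tm.subst, up, inst] using this

/-- Generalisation on a fresh free variable. -/
theorem gen_fresh {x : ℕ} (hΓ : ∀ ψ ∈ Γ, ¬ ψ.Free x) (hφ : ¬ φ.Free (x + 1))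
    (h : HA Γ (φ.subst (inst (.var x)))) : HA Γ (.all φ) := by
  let ρ : ℕ → Tm := fun n => if n = x then .var 0 else .var (n + 1)
  have h' := h.subst ρ
  have e1 : (φ.subst (inst (.var x))).subst ρ = φ := by
    rw [Fm.subst_subst]
    conv_rhs => rw [← Fm.subst_var φ]
    apply Fm.subst_congr
    intro y hy
    cases y with
    | zero => simp [comp, inst, Tm.subst, ρ]
    | succ y =>
      have : y ≠ x := by rintro rfl; exact hφ hy
      simp [comp, inst, Tm.subst, ρ, this]
  rw [e1] at h'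
  refine allI (h'.mono ?_)
  rintro _ ⟨ψ, hψ, rfl⟩
  refine ⟨ψ, hψ, ?_⟩
  apply Fm.subst_congr
  intro y hy
  have : y ≠ x := by rintro rfl; exact hΓ ψ hψ hy
  simp [ρ, this, shiftVar]

/-- Existential elimination with a fresh free variable. -/
theorem ex_fresh {x : ℕ} (hΓ : ∀ ψ ∈ Γ, ¬ ψ.Free x) (hφ : ¬ φ.Free (x + 1)) (hψ : ¬ ψ.Free x)
    (hex : HA Γ (.ex φ)) (h : HA (insert (φ.subst (inst (.var x))) Γ) ψ) : HA Γ ψ := by
  have h' : HA Γ (.all (.imp φ ψ.shift)) := by
    apply gen_fresh (x := x) hΓ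
    · rintro (h1 | h1)
      · exact hφ h1
      · obtain ⟨y, hy, hy'⟩ := Fm.free_subst h1
        simp only [shiftVar, Tm.Free] at hy'
        obtain rfl : y = x := by omega
        exact hψ hy
    · simp only [Fm.subst, Fm.shift_inst]
      exact impI h
  refine exE hex ?_
  have h2 := (h'.subst shiftVar)
  have h3 := allE (.var 0) h2
  rw [up_shift_inst_zero] at h3
  exact impE (h3.weak φ) h0

end HA

/-- Double negation relative to `ψ`. -/
def nn (ψ φ : Fm) : Fm := .imp (.imp φ ψ) ψ

/-- The negative translation with the formula `ψ` in the place of falsum. -/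
def tr : Fm → Fm → Fm
  | ψ, .bot => ψ
  | ψ, .eq s t => nn ψ (.eq s t)
  | ψ, .and a b => .and (tr ψ a) (tr ψ b)
  | ψ, .or a b => nn ψ (.or (tr ψ a) (tr ψ b))
  | ψ, .imp a b => .imp (tr ψ a) (tr ψ b)
  | ψ, .all a => .all (tr ψ.shift a)
  | ψ, .ex a => nn ψ (.ex (tr ψ.shift a))

theorem tr_subst (ψ a : Fm) (σ : ℕ → Tm) : (tr ψ a).subst σ = tr (ψ.subst σ) (a.subst σ) := by
  induction a generalizing ψ σ with
  | bot => rfl
  | eq s t => rfl
  | and a b iha ihb => simp [tr, Fm.subst, iha, ihb]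
  | or a b iha ihb => simp [tr, nn, Fm.subst, iha, ihb]
  | imp a b iha ihb => simp [tr, Fm.subst, iha, ihb]
  | all a ih => simp [tr, Fm.subst, ih]
  | ex a ih => simp [tr, nn, Fm.subst, ih]

namespace HA

variable {Γ : Set Fm} {φ ψ χ : Fm}

theorem nn_intro (h : HA Γ φ) : HA Γ (nn ψ φ) := impI (impE h0 (h.weak _))

theorem nn_map (h : HA Γ (nn ψ φ)) (h' : HA (insert φ Γ) χ) : HA Γ (nn ψ χ) := by
  refine impI (impE (h.weak _) (impI (impE h1 (h'.mono ?_))))
  exact Set.insert_subset_insert (Set.subset_insert _ _)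

theorem nn_bind (h : HA Γ (nn ψ φ)) (h' : HA (insert φ Γ) (nn ψ χ)) : HA Γ (nn ψ χ) := by
  refine impI (impE (h.weak _) (impI (impE (h'.mono ?_) h1)))
  exact Set.insert_subset_insert (Set.subset_insert _ _)

theorem tr_stable (a ψ : Fm) (h : HA Γ (nn ψ (tr ψ a))) : HA Γ (tr ψ a) := by
  induction a generalizing Γ ψ with
  | bot => exact impE h (impI h0)
  | eq s t => exact nn_bind h h0
  | and a b iha ihb =>
    exact andI (iha _ (nn_map h (andE₁ h0))) (ihb _ (nn_map h (andE₂ h0)))
  | or a b iha ihb => exact nn_bind h h0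
  | imp a b iha ihb =>
    exact impI (ihb _ (nn_map (h.weak _) (impE h0 h1)))
  | all a ih =>
    refine allI (ih _ ?_)
    have h2 := h.subst shiftVar
    refine nn_map (φ := (tr ψ (.all a)).subst shiftVar) h2 ?_
    have h3 := allE (.var 0) (HA.h0 (Γ := Fm.shift '' Γ) (φ := (tr ψ (.all a)).subst shiftVar))
    rwa [up_shift_inst_zero] at h3
  | ex a ih => exact nn_bind h h0

theorem tr_ax (a ψ : Fm) (h : HAx a) : HA Γ (tr ψ a) := by
  cases h with
  | succ_ne_zero =>
    exact allI (impI (impE h0 (impI (botE (succ_ne_zero' h0)))))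
  | succ_inj =>
    exact allI (allI (impI (nn_map h0 (succ_inj' h0))))
  | add_zero =>
    exact allI (nn_intro (allE (.var 0) (ax .add_zero)))
  | add_succ =>
    exact allI (allI (nn_intro (allE (.var 0) (allE (.var 1) (ax .add_succ)))))
  | mul_zero =>
    exact allI (nn_intro (allE (.var 0) (ax .mul_zero)))
  | mul_succ =>
    exact allI (allI (nn_intro (allE (.var 0) (allE (.var 1) (ax .mul_succ)))))
  | ind φ =>
    have e1 : tr ψ (φ.subst (inst .zero)) = (tr ψ.shift φ).subst (inst .zero) := by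
      rw [tr_subst, Fm.shift_inst]
    have e2 : tr ψ.shift (φ.subst stepSubst) = (tr ψ.shift φ).subst stepSubst := by
      rw [tr_subst, Fm.shift_step]
    simp only [tr]
    rw [e1, e2]
    exact ax (.ind _)

end HA

end Pool.Agent.Lib.MP_403d16_lc
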