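import Pool.Agent.Lib.MP_403d16_lc.Derive

/-! The Henkin construction: saturated sets maximal with respect to not proving a formula. -/

namespace Pool.Agent.Lib.MP_403d16_lc

/-- All free variables of `φ` are in `E`. -/
def InDom (E : Set ℕ) (φ : Fm) : Prop := ∀ x, φ.Free x → x ∈ E

/-- A saturated set of formulas with free variables in `E`, maximal for not proving `ψ`. -/
structure SatMax (E : Set ℕ) (ψ : Fm) (Δ : Set Fm) : Prop where
  dom : ∀ φ ∈ Δ, InDom E φ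
  unprov : ¬ HA Δ ψ
  max : ∀ φ, InDom E φ → φ ∉ Δ → HA (insert φ Δ) ψ
  wit : ∀ φ, Fm.ex φ ∈ Δ → ∃ x ∈ E, φ.subst (inst (.var x)) ∈ Δ

/-- The finite stages of the construction. -/
structure Stage (E : Set ℕ) (Γ₀ : Set Fm) (ψ : Fm) (Γ : Set Fm) : Prop where
  sub : Γ₀ ⊆ Γ
  dom : ∀ φ ∈ Γ, InDom E φ
  fin : (Γ \ Γ₀).Finite
  unprov : ¬ HA Γ ψ

theorem Stage.step {E : Set ℕ} {Γ₀ : Set Fm} {ψ : Fm} {Γ : Set Fm} (h : Stage E Γ₀ ψ Γ)
    (hF : {x | x ∈ E ∧ ∀ γ ∈ Γ₀, ¬ γ.Free x}.Infinite) (φ : Fm) :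
    ∃ Γ', Stage E Γ₀ ψ Γ' ∧ Γ ⊆ Γ' ∧ (InDom E φ → φ ∈ Γ' ∨ HA (insert φ Γ) ψ) ∧
      (∀ θ, φ = .ex θ → InDom E φ → ¬ HA (insert φ Γ) ψ →
        ∃ x ∈ E, θ.subst (inst (.var x)) ∈ Γ') := by
  by_cases hE : InDom E φ
  swap
  · exact ⟨Γ, h, subset_rfl, fun h => absurd h hE, fun _ _ h => absurd h hE⟩
  by_cases hp : HA (insert φ Γ) ψ
  · exact ⟨Γ, h, subset_rfl, fun _ => Or.inr hp, fun _ _ _ h => absurd hp h⟩
  have hins : Stage E Γ₀ ψ (insert φ Γ) := by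
    refine ⟨h.sub.trans (Set.subset_insert _ _), ?_, ?_, hp⟩
    · rintro χ (rfl | hχ)
      · exact hE
      · exact h.dom χ hχ
    · refine (h.fin.insert φ).subset ?_
      rintro χ ⟨rfl | h1, h2⟩
      · exact Or.inl rfl
      · exact Or.inr ⟨h1, h2⟩
  by_cases hex : ∃ θ, φ = .ex θ
  swap
  · exact ⟨insert φ Γ, hins, Set.subset_insert _ _, fun _ => Or.inl (Set.mem_insert _ _),
      fun θ hθ => absurd ⟨θ, hθ⟩ hex⟩
  obtain ⟨θ, rfl⟩ := hex
  -- a fresh variable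
  have hfin : (⋃ γ ∈ (Γ \ Γ₀), {x | Fm.Free x γ}).Finite :=
    h.fin.biUnion fun γ _ => γ.finite_free
  have hfin2 := (hfin.union (Fm.finite_free (.ex θ))).union ψ.finite_free
  obtain ⟨x, ⟨hx1, hx2⟩, hx3⟩ := (hF.sdiff hfin2).nonempty
  have hx4 : ∀ γ ∈ Γ, ¬ γ.Free x := by
    intro γ hγ hγx
    by_cases hg : γ ∈ Γ₀
    · exact hx2 γ hg hγx
    · exact hx3 (Or.inl (Or.inl (Set.mem_biUnion (show γ ∈ Γ \ Γ₀ from ⟨hγ, hg⟩) hγx)))
  have hx5 : ¬ (Fm.ex θ).Free x := fun h => hx3 (Or.inl (Or.inr h))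
  have hx6 : ¬ ψ.Free x := fun h => hx3 (Or.inr h)
  refine ⟨insert (θ.subst (inst (.var x))) (insert (.ex θ) Γ), ⟨?_, ?_, ?_, ?_⟩, ?_, ?_, ?_⟩
  · exact hins.sub.trans (Set.subset_insert _ _)
  · rintro χ (rfl | hχ)
    · intro y hy
      obtain ⟨z, hz, hz'⟩ := Fm.free_subst hy
      cases z with
      | zero => simp only [inst, Tm.Free] at hz'; rw [← hz']; exact hx1
      | succ z => simp only [inst, Tm.Free] at hz'; rw [← hz']; exact hE z hz
    · exact hins.dom χ hχ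
  · refine (hins.fin.insert (θ.subst (inst (.var x)))).subset ?_
    rintro χ ⟨h1 | h1, h2⟩
    · exact Or.inl h1
    · exact Or.inr ⟨h1, h2⟩
  · intro hcon
    refine hp (HA.ex_fresh (x := x) (φ := θ) ?_ ?_ hx6 HA.h0 hcon)
    · rintro γ (rfl | hγ)
      · exact hx5
      · exact hx4 γ hγ
    · exact hx5
  · exact (Set.subset_insert _ _).trans (Set.subset_insert _ _)
  · intro _; left; exact Set.mem_insert_of_mem _ (Set.mem_insert _ _)
  · rintro θ' hθ' _ _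
    cases hθ'
    exact ⟨x, hx1, Set.mem_insert _ _⟩

/-- The Henkin construction. -/
theorem exists_satMax {E : Set ℕ} {Γ₀ : Set Fm} {ψ : Fm} (hdom : ∀ φ ∈ Γ₀, InDom E φ)
    (hF : {x | x ∈ E ∧ ∀ γ ∈ Γ₀, ¬ γ.Free x}.Infinite) (hunp : ¬ HA Γ₀ ψ) :
    ∃ Δ, Γ₀ ⊆ Δ ∧ SatMax E ψ Δ := by
  obtain ⟨f, hf⟩ : ∃ f : ℕ → Fm, Function.Surjective f := by
    have : Nonempty Fm := ⟨.bot⟩
    exact exists_surjective_nat Fm
  have h0 : Stage E Γ₀ ψ Γ₀ := ⟨subset_rfl, hdom, by simp, hunp⟩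
  choose g hg using fun (Γ : {Γ // Stage E Γ₀ ψ Γ}) (φ : Fm) => Γ.2.step hF φ
  let G : ℕ → {Γ // Stage E Γ₀ ψ Γ} :=
    fun n => Nat.rec ⟨Γ₀, h0⟩ (fun n Γ => ⟨g Γ (f n), (hg Γ (f n)).1⟩) n
  have hG : ∀ n, (G (n + 1)).1 = g (G n) (f n) := fun n => rfl
  have hmono : Monotone fun n => (G n).1 := by
    apply monotone_nat_of_le_succ
    intro n
    rw [hG]
    exact (hg (G n) (f n)).2.1
  have hfinsub : ∀ s : Set Fm, s.Finite → s ⊆ (⋃ n, (G n).1) → ∃ n, s ⊆ (G n).1 := by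
    intro s hs
    induction s, hs using Set.Finite.induction_on with
    | empty => intro _; exact ⟨0, Set.empty_subset _⟩
    | @insert a s _ _ ih =>
      intro h
      obtain ⟨n, hn⟩ := ih ((Set.subset_insert _ _).trans h)
      obtain ⟨m, hm⟩ := Set.mem_iUnion.1 (h (Set.mem_insert _ _))
      refine ⟨max n m, ?_⟩
      rintro x (rfl | hx)
      · exact hmono (le_max_right _ _) hm
      · exact hmono (le_max_left _ _) (hn hx)
  have hunpΔ : ¬ HA (⋃ n, (G n).1) ψ := by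
    intro h
    obtain ⟨s, hs1, hs2, hs3⟩ := h.compact
    obtain ⟨n, hn⟩ := hfinsub s hs2 hs1
    exact (G n).2.unprov (hs3.mono hn)
  have hsub : ∀ n, (G n).1 ⊆ ⋃ n, (G n).1 := fun n => Set.subset_iUnion (fun n => (G n).1) n
  refine ⟨⋃ n, (G n).1, hsub 0, ?_, hunpΔ, ?_, ?_⟩
  · intro φ hφ
    obtain ⟨n, hn⟩ := Set.mem_iUnion.1 hφ
    exact (G n).2.dom φ hn
  · intro φ hφE hφ
    obtain ⟨n, rfl⟩ := hf φ
    rcases (hg (G n) (f n)).2.2.1 hφE with h | h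
    · exact absurd (hsub (n + 1) (by rw [hG]; exact h)) hφ
    · exact h.mono (Set.insert_subset_insert (hsub n))
  · intro φ hφ
    obtain ⟨n, hn⟩ := hf (.ex φ)
    have hE : InDom E (.ex φ) := by
      obtain ⟨m, hm⟩ := Set.mem_iUnion.1 hφ
      exact (G m).2.dom _ hm
    have hnp : ¬ HA (insert (.ex φ) (G n).1) ψ := by
      intro h
      refine hunpΔ (h.mono ?_)
      exact Set.insert_subset hφ (hsub n)
    obtain ⟨x, hx, hx'⟩ := (hg (G n) (f n)).2.2.2 φ hn (by rw [hn]; exact hE) (by rw [hn]; exact hnp)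
    exact ⟨x, hx, hsub (n + 1) (by rw [hG]; exact hx')⟩

namespace SatMax

variable {E : Set ℕ} {ψ : Fm} {Δ : Set Fm}

theorem ded (h : SatMax E ψ Δ) {φ : Fm} (hφ : InDom E φ) (hp : HA Δ φ) : φ ∈ Δ := by
  by_contra hn
  exact h.unprov (hp.cut (h.max φ hφ hn))

theorem imp_of_not (h : SatMax E ψ Δ) {φ : Fm} (hφ : InDom E φ) (hp : ¬ HA Δ φ) :
    HA Δ (.imp φ ψ) :=
  .impI (h.max φ hφ fun hn => hp (.hyp hn))

end SatMax

/-- Substitution of provably equal terms. -/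
theorem HA.subst_eq {Γ : Set Fm} (φ : Fm) (σ τ : ℕ → Tm) (h : ∀ n, HA Γ (.eq (σ n) (τ n)))
    (hφ : HA Γ (φ.subst σ)) : HA Γ (φ.subst τ) := by
  have ht : ∀ (Γ : Set Fm) (σ τ : ℕ → Tm) (t : Tm), (∀ n, HA Γ (.eq (σ n) (τ n))) →
      HA Γ (.eq (t.subst σ) (t.subst τ)) := by
    intro Γ σ τ t h
    induction t with
    | var n => exact h n
    | zero => exact .eqRefl _
    | succ t ih => exact HA.congr_succ ih
    | add s t ih1 ih2 => exact HA.congr_add ih1 ih2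
    | mul s t ih1 ih2 => exact HA.congr_mul ih1 ih2
  have hup : ∀ (Γ : Set Fm) (σ τ : ℕ → Tm), (∀ n, HA Γ (.eq (σ n) (τ n))) →
      ∀ n, HA (Fm.shift '' Γ) (.eq (up σ n) (up τ n)) := by
    intro Γ σ τ h n
    cases n with
    | zero => exact .eqRefl _
    | succ n => exact (h n).subst shiftVar
  have hw : ∀ {Γ : Set Fm} {σ τ : ℕ → Tm} (χ : Fm), (∀ n, HA Γ (.eq (σ n) (τ n))) →
      ∀ n, HA (insert χ Γ) (.eq (σ n) (τ n)) := fun χ h n => (h n).weak χ
  induction φ generalizing Γ σ τ with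
  | bot => exact hφ
  | eq s t => exact HA.trans (HA.trans (HA.symm (ht Γ σ τ s h)) hφ) (ht Γ σ τ t h)
  | and a b iha ihb => exact .andI (iha σ τ h (.andE₁ hφ)) (ihb σ τ h (.andE₂ hφ))
  | or a b iha ihb =>
    exact .orE hφ (.orI₁ (iha σ τ (hw _ h) HA.h0)) (.orI₂ (ihb σ τ (hw _ h) HA.h0))
  | imp a b iha ihb =>
    refine .impI (ihb σ τ (hw _ h) (.impE (hφ.weak _) (iha τ σ (hw _ fun n => (h n).symm) HA.h0)))
  | all a ih =>
    refine .allI (ih (up σ) (up τ) (hup Γ σ τ h) ?_)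
    have h1 := hφ.subst shiftVar
    have h2 := HA.allE (.var 0) h1
    rwa [up_shift_inst_zero] at h2
  | ex a ih =>
    refine .exE hφ ?_
    refine .exI (.var 0) ?_
    rw [up_shift_inst_zero]
    exact ih (up σ) (up τ) (hw _ (hup Γ σ τ h)) HA.h0

theorem HA.inst_eq {Γ : Set Fm} (φ : Fm) {s t : Tm} (h : HA Γ (.eq s t))
    (hφ : HA Γ (φ.subst (inst s))) : HA Γ (φ.subst (inst t)) := .eqSubst φ h hφ

theorem HA.tr_of {Γ : Set Fm} {ψ : Fm} (a : Fm) (h : HA Γ ψ) : HA Γ (tr ψ a) :=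
  HA.tr_stable a ψ (.impI (h.weak _))

theorem shift_free {ψ : Fm} {x : ℕ} (h : ψ.shift.Free (x + 1)) : ψ.Free x := by
  obtain ⟨y, hy, hy'⟩ := Fm.free_subst h
  simp only [shiftVar, Tm.Free] at hy'
  obtain rfl : y = x := by omega
  exact hy

theorem tr_free {ψ a : Fm} {x : ℕ} (h : (tr ψ a).Free x) : ψ.Free x ∨ a.Free x := by
  induction a generalizing ψ x with
  | bot => exact Or.inl h
  | eq s t => rcases h with (h | h) | h; exacts [Or.inr h, Or.inl h, Or.inl h]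
  | and a b iha ihb =>
    rcases h with h | h
    · exact (iha h).imp_right Or.inl
    · exact (ihb h).imp_right Or.inr
  | or a b iha ihb =>
    rcases h with ((h | h) | h) | h
    · exact (iha h).imp_right Or.inl
    · exact (ihb h).imp_right Or.inr
    · exact Or.inl h
    · exact Or.inl h
  | imp a b iha ihb =>
    rcases h with h | h
    · exact (iha h).imp_right Or.inl
    · exact (ihb h).imp_right Or.inr
  | all a ih =>
    rcases ih h with h | h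
    · exact Or.inl (shift_free h)
    · exact Or.inr h
  | ex a ih =>
    rcases h with (h | h) | h
    · rcases ih h with h | h
      · exact Or.inl (shift_free h)
      · exact Or.inr h
    · exact Or.inl h
    · exact Or.inl h

theorem InDom.tr {E : Set ℕ} {ψ a : Fm} (h1 : InDom E ψ) (h2 : InDom E a) : InDom E (tr ψ a) :=
  fun x hx => (tr_free hx).elim (h1 x) (h2 x)

/-- Free variables after the substitution of variables by an assignment of names in `D`. -/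
theorem InDom.assign {D : Set ℕ} (e : ℕ → D) (φ : Fm) :
    InDom D (φ.subst fun n => .var (e n)) := by
  intro y hy
  obtain ⟨x, _, hx⟩ := Fm.free_subst hy
  simp only [Tm.Free] at hx
  rw [← hx]
  exact (e x).2

theorem InDom.mono {D E : Set ℕ} (h : D ⊆ E) {φ : Fm} (hφ : InDom D φ) : InDom E φ :=
  fun x hx => h (hφ x hx)

theorem inst_assign {M : Set ℕ} (φ : Fm) (e : ℕ → M) (a : M) :
    (φ.subst (up fun n => .var (e n))).subst (inst (.var a)) =
      φ.subst fun n => .var ((scons a e n : M) : ℕ) := by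
  rw [Fm.subst_subst]
  congr 1
  funext n
  cases n with
  | zero => rfl
  | succ n => rfl

end Pool.Agent.Lib.MP_403d16_lc
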