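import Pool.Agent.Lib.MP_403d16_lc.Subst

/-! Structural properties of provability. -/

namespace Pool.Agent.Lib.MP_403d16_lc

theorem HA.mono {Γ Δ : Set Fm} {φ : Fm} (h : HA Γ φ) (hs : Γ ⊆ Δ) : HA Δ φ := by
  induction h generalizing Δ with
  | ax h => exact .ax h
  | hyp h => exact .hyp (hs h)
  | botE _ ih => exact .botE (ih hs)
  | andI _ _ ih1 ih2 => exact .andI (ih1 hs) (ih2 hs)
  | andE₁ _ ih => exact .andE₁ (ih hs)
  | andE₂ _ ih => exact .andE₂ (ih hs)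
  | orI₁ _ ih => exact .orI₁ (ih hs)
  | orI₂ _ ih => exact .orI₂ (ih hs)
  | orE _ _ _ ih ih1 ih2 =>
    exact .orE (ih hs) (ih1 (Set.insert_subset_insert hs)) (ih2 (Set.insert_subset_insert hs))
  | impI _ ih => exact .impI (ih (Set.insert_subset_insert hs))
  | impE _ _ ih1 ih2 => exact .impE (ih1 hs) (ih2 hs)
  | allI _ ih => exact .allI (ih (Set.image_mono hs))
  | allE t _ ih => exact .allE t (ih hs)
  | exI t _ ih => exact .exI t (ih hs)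
  | exE _ _ ih1 ih2 => exact .exE (ih1 hs) (ih2 (Set.insert_subset_insert (Set.image_mono hs)))
  | eqRefl t => exact .eqRefl t
  | eqSubst φ _ _ ih1 ih2 => exact .eqSubst φ (ih1 hs) (ih2 hs)

theorem HAx.subst {φ : Fm} (h : HAx φ) (σ : ℕ → Tm) : HAx (φ.subst σ) := by
  cases h with
  | succ_ne_zero => exact .succ_ne_zero
  | succ_inj => exact .succ_inj
  | add_zero => exact .add_zero
  | add_succ => exact .add_succ
  | mul_zero => exact .mul_zero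
  | mul_succ => exact .mul_succ
  | ind φ =>
    simp only [Fm.subst]
    rw [Fm.inst_subst, Fm.step_subst]
    exact .ind _

theorem image_shift_subst (Γ : Set Fm) (σ : ℕ → Tm) :
    Fm.shift '' (Fm.subst σ '' Γ) = Fm.subst (up σ) '' (Fm.shift '' Γ) := by
  rw [Set.image_image, Set.image_image]
  simp

theorem HA.subst {Γ : Set Fm} {φ : Fm} (h : HA Γ φ) (σ : ℕ → Tm) :
    HA (Fm.subst σ '' Γ) (φ.subst σ) := by
  induction h generalizing σ with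
  | ax h => exact .ax (h.subst σ)
  | hyp h => exact .hyp (Set.mem_image_of_mem _ h)
  | botE _ ih => exact .botE (ih σ)
  | andI _ _ ih1 ih2 => exact .andI (ih1 σ) (ih2 σ)
  | andE₁ _ ih => exact .andE₁ (ih σ)
  | andE₂ _ ih => exact .andE₂ (ih σ)
  | orI₁ _ ih => exact .orI₁ (ih σ)
  | orI₂ _ ih => exact .orI₂ (ih σ)
  | orE _ _ _ ih ih1 ih2 =>
    refine .orE (ih σ) ?_ ?_
    · rw [← Set.image_insert_eq]; exact ih1 σ
    · rw [← Set.image_insert_eq]; exact ih2 σ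
  | impI _ ih =>
    refine .impI ?_
    rw [← Set.image_insert_eq]; exact ih σ
  | impE _ _ ih1 ih2 => exact .impE (ih1 σ) (ih2 σ)
  | allI _ ih =>
    refine .allI ?_
    rw [image_shift_subst]
    exact ih (up σ)
  | allE t _ ih =>
    rw [Fm.inst_subst]
    exact .allE _ (ih σ)
  | exI t _ ih =>
    refine .exI (t.subst σ) ?_
    rw [← Fm.inst_subst]
    exact ih σ
  | exE _ _ ih1 ih2 =>
    refine .exE (ih1 σ) ?_
    have := ih2 (up σ)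
    rw [Set.image_insert_eq, ← image_shift_subst, Fm.shift_up] at this
    exact this
  | eqRefl t => exact .eqRefl _
  | eqSubst φ _ _ ih1 ih2 =>
    rw [Fm.inst_subst]
    refine .eqSubst _ (ih1 σ) ?_
    rw [← Fm.inst_subst]
    exact ih2 σ

theorem exists_fin_image {α β : Type*} {f : α → β} {s : Set α} {t : Set β} (h : t ⊆ f '' s)
    (ht : t.Finite) : ∃ u ⊆ s, u.Finite ∧ f '' u = t :=
  (Set.exists_subset_image_finite_and (p := fun x => x = t)).1 ⟨t, h, ht, rfl⟩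

theorem HA.compact {Γ : Set Fm} {φ : Fm} (h : HA Γ φ) :
    ∃ Γ₀ : Set Fm, Γ₀ ⊆ Γ ∧ Γ₀.Finite ∧ HA Γ₀ φ := by
  induction h with
  | ax h => exact ⟨∅, Set.empty_subset _, Set.finite_empty, .ax h⟩
  | @hyp Γ φ h => exact ⟨{φ}, by simpa using h, Set.finite_singleton _, .hyp rfl⟩
  | botE _ ih => obtain ⟨Γ₀, h1, h2, h3⟩ := ih; exact ⟨Γ₀, h1, h2, .botE h3⟩
  | andI _ _ ih1 ih2 =>
    obtain ⟨Γ₁, h1, h2, h3⟩ := ih1
    obtain ⟨Γ₂, h4, h5, h6⟩ := ih2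
    exact ⟨Γ₁ ∪ Γ₂, Set.union_subset h1 h4, h2.union h5,
      .andI (h3.mono Set.subset_union_left) (h6.mono Set.subset_union_right)⟩
  | andE₁ _ ih => obtain ⟨Γ₀, h1, h2, h3⟩ := ih; exact ⟨Γ₀, h1, h2, .andE₁ h3⟩
  | andE₂ _ ih => obtain ⟨Γ₀, h1, h2, h3⟩ := ih; exact ⟨Γ₀, h1, h2, .andE₂ h3⟩
  | orI₁ _ ih => obtain ⟨Γ₀, h1, h2, h3⟩ := ih; exact ⟨Γ₀, h1, h2, .orI₁ h3⟩
  | orI₂ _ ih => obtain ⟨Γ₀, h1, h2, h3⟩ := ih; exact ⟨Γ₀, h1, h2, .orI₂ h3⟩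
  | @orE Γ φ ψ χ _ _ _ ih ih1 ih2 =>
    obtain ⟨Γ₀, h1, h2, h3⟩ := ih
    obtain ⟨Γ₁, h4, h5, h6⟩ := ih1
    obtain ⟨Γ₂, h7, h8, h9⟩ := ih2
    refine ⟨Γ₀ ∪ (Γ₁ \ {φ}) ∪ (Γ₂ \ {ψ}), ?_, (h2.union h5.sdiff).union h8.sdiff, .orE
      (h3.mono ?_) (h6.mono ?_) (h9.mono ?_)⟩
    · rintro x ((hx | ⟨hx, hx'⟩) | ⟨hx, hx'⟩)
      · exact h1 hx
      · exact (h4 hx).resolve_left hx'
      · exact (h7 hx).resolve_left hx'
    · intro x hx; exact Or.inl (Or.inl hx)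
    · intro x hx
      by_cases h : x = φ
      · exact Or.inl h
      · exact Or.inr (Or.inl (Or.inr ⟨hx, h⟩))
    · intro x hx
      by_cases h : x = ψ
      · exact Or.inl h
      · exact Or.inr (Or.inr ⟨hx, h⟩)
  | @impI Γ φ ψ _ ih =>
    obtain ⟨Γ₁, h4, h5, h6⟩ := ih
    refine ⟨Γ₁ \ {φ}, ?_, h5.sdiff, .impI (h6.mono ?_)⟩
    · rintro x ⟨hx, hx'⟩
      exact (h4 hx).resolve_left hx'
    · intro x hx
      by_cases h : x = φ
      · exact Or.inl h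
      · exact Or.inr ⟨hx, h⟩
  | impE _ _ ih1 ih2 =>
    obtain ⟨Γ₁, h1, h2, h3⟩ := ih1
    obtain ⟨Γ₂, h4, h5, h6⟩ := ih2
    exact ⟨Γ₁ ∪ Γ₂, Set.union_subset h1 h4, h2.union h5,
      .impE (h3.mono Set.subset_union_left) (h6.mono Set.subset_union_right)⟩
  | allI _ ih =>
    obtain ⟨Γ₁, h1, h2, h3⟩ := ih
    obtain ⟨Γ₂, h4, h5, h6⟩ := exists_fin_image h1 h2
    exact ⟨Γ₂, h4, h5, .allI (by rwa [h6])⟩
  | allE t _ ih => obtain ⟨Γ₀, h1, h2, h3⟩ := ih; exact ⟨Γ₀, h1, h2, .allE t h3⟩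
  | exI t _ ih => obtain ⟨Γ₀, h1, h2, h3⟩ := ih; exact ⟨Γ₀, h1, h2, .exI t h3⟩
  | @exE Γ φ ψ _ _ ih1 ih2 =>
    obtain ⟨Γ₁, h1, h2, h3⟩ := ih1
    obtain ⟨Γ₂, h4, h5, h6⟩ := ih2
    have h7 : Γ₂ \ {φ} ⊆ Fm.shift '' Γ := by
      rintro x ⟨hx, hx'⟩
      exact (h4 hx).resolve_left hx'
    obtain ⟨Γ₃, h8, h9, h10⟩ := exists_fin_image h7 h5.sdiff
    refine ⟨Γ₁ ∪ Γ₃, Set.union_subset h1 h8, h2.union h9, .exE (h3.mono Set.subset_union_left)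
      (h6.mono ?_)⟩
    intro x hx
    by_cases h : x = φ
    · exact Or.inl h
    · refine Or.inr ?_
      rw [Set.image_union, h10]
      exact Or.inr ⟨hx, h⟩
  | eqRefl t => exact ⟨∅, Set.empty_subset _, Set.finite_empty, .eqRefl t⟩
  | eqSubst φ _ _ ih1 ih2 =>
    obtain ⟨Γ₁, h1, h2, h3⟩ := ih1
    obtain ⟨Γ₂, h4, h5, h6⟩ := ih2
    exact ⟨Γ₁ ∪ Γ₂, Set.union_subset h1 h4, h2.union h5,
      .eqSubst φ (h3.mono Set.subset_union_left) (h6.mono Set.subset_union_right)⟩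

end Pool.Agent.Lib.MP_403d16_lc
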