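import Pool.Agent.Lib.MP_403d16_lc.Proof

/-! Soundness of `HA` for its Kripke models. -/

namespace Pool.Agent.Lib.MP_403d16_lc

theorem Tm.eval_subst {M : Type*} (S : ArithStr M) (σ : ℕ → Tm) (e : ℕ → M) (t : Tm) :
    (t.subst σ).eval S e = t.eval S (fun n => (σ n).eval S e) := by
  induction t with
  | var n => rfl
  | zero => rfl
  | succ t ih => simp [Tm.subst, Tm.eval, ih]
  | add s t ihs iht => simp [Tm.subst, Tm.eval, ihs, iht]
  | mul s t ihs iht => simp [Tm.subst, Tm.eval, ihs, iht]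

theorem eval_up {M : Type*} (S : ArithStr M) (σ : ℕ → Tm) (a : M) (e : ℕ → M) :
    (fun n => (up σ n).eval S (scons a e)) = scons a (fun n => (σ n).eval S e) := by
  funext n
  cases n with
  | zero => rfl
  | succ n =>
    simp only [up, Tm.eval_subst, scons]
    rfl

theorem eval_inst {M : Type*} (S : ArithStr M) (t : Tm) (e : ℕ → M) :
    (fun n => (inst t n).eval S e) = scons (t.eval S e) e := by
  funext n
  cases n <;> rfl

theorem eval_shift {M : Type*} (S : ArithStr M) (a : M) (e : ℕ → M) :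
    (fun n => (shiftVar n).eval S (scons a e)) = e := by
  funext n; rfl

namespace KripkeModel

variable (K : KripkeModel)

theorem push_refl {k : K.Node} (h : k ≤ k) (e : ℕ → K.dom k) : K.push h e = e := by
  funext n; rfl

theorem push_push {k l m : K.Node} (h : k ≤ l) (h' : l ≤ m) (e : ℕ → K.dom k) :
    K.push h' (K.push h e) = K.push (h.trans h') e := by
  funext n; rfl

theorem push_scons {k l : K.Node} (h : k ≤ l) (a : K.dom k) (e : ℕ → K.dom k) :
    K.push h (scons a e) = scons ⟨a, K.dom_mono h a.2⟩ (K.push h e) := by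
  funext n; cases n <;> rfl

theorem eval_push {k l : K.Node} (h : k ≤ l) (e : ℕ → K.dom k) (t : Tm) :
    t.eval (K.str l) (K.push h e) =
      ⟨((t.eval (K.str k) e : K.dom k) : K.U), K.dom_mono h (t.eval (K.str k) e).2⟩ := by
  induction t with
  | var n => rfl
  | zero => exact Subtype.ext (K.zero_eq h).symm
  | succ t ih => simp only [Tm.eval]; rw [ih]; exact Subtype.ext (K.succ_eq h _).symm
  | add s t ihs iht =>
    simp only [Tm.eval]; rw [ihs, iht]; exact Subtype.ext (K.add_eq h _ _).symm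
  | mul s t ihs iht =>
    simp only [Tm.eval]; rw [ihs, iht]; exact Subtype.ext (K.mul_eq h _ _).symm

theorem forces_subst (φ : Fm) (σ : ℕ → Tm) (k : K.Node) (e : ℕ → K.dom k) :
    K.Forces (φ.subst σ) k e ↔ K.Forces φ k (fun n => (σ n).eval (K.str k) e) := by
  have hp : ∀ {k l : K.Node} (h : k ≤ l) (σ : ℕ → Tm) (e : ℕ → K.dom k),
      (fun n => (σ n).eval (K.str l) (K.push h e)) =
        K.push h (fun n => (σ n).eval (K.str k) e) := by
    intro k l h σ e
    funext n
    rw [eval_push]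
    rfl
  induction φ generalizing σ k e with
  | bot => rfl
  | eq s t => simp only [Fm.subst, Forces, Tm.eval_subst]
  | and φ ψ ih1 ih2 => simp only [Fm.subst, Forces, ih1, ih2]
  | or φ ψ ih1 ih2 => simp only [Fm.subst, Forces, ih1, ih2]
  | imp φ ψ ih1 ih2 => simp only [Fm.subst, Forces, ih1, ih2, hp]
  | all φ ih => simp only [Fm.subst, Forces, ih, eval_up, hp]
  | ex φ ih => simp only [Fm.subst, Forces, ih, eval_up]

theorem forces_mono (φ : Fm) {k l : K.Node} (h : k ≤ l) (e : ℕ → K.dom k)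
    (hf : K.Forces φ k e) : K.Forces φ l (K.push h e) := by
  induction φ generalizing k l e with
  | bot => exact hf
  | eq s t =>
    simp only [Forces] at hf ⊢
    rw [eval_push, eval_push]
    rw [hf]
  | and φ ψ ih1 ih2 => exact ⟨ih1 h e hf.1, ih2 h e hf.2⟩
  | or φ ψ ih1 ih2 => exact hf.imp (ih1 h e) (ih2 h e)
  | imp φ ψ ih1 ih2 => exact fun m h' => hf m (h.trans h')
  | all φ ih => exact fun m h' => hf m (h.trans h')
  | ex φ ih =>
    obtain ⟨a, ha⟩ := hf
    refine ⟨⟨a, K.dom_mono h a.2⟩, ?_⟩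
    rw [← push_scons]
    exact ih h _ ha

theorem sound {Γ : Set Fm} {φ : Fm} (h : HA Γ φ) (hK : K.IsHA) (k : K.Node)
    (e : ℕ → K.dom k) (hΓ : ∀ ψ ∈ Γ, K.Forces ψ k e) : K.Forces φ k e := by
  induction h generalizing k e with
  | ax h => exact hK _ h k e
  | hyp h => exact hΓ _ h
  | botE _ ih => exact (ih k e hΓ).elim
  | andI _ _ ih1 ih2 => exact ⟨ih1 k e hΓ, ih2 k e hΓ⟩
  | andE₁ _ ih => exact (ih k e hΓ).1
  | andE₂ _ ih => exact (ih k e hΓ).2
  | orI₁ _ ih => exact Or.inl (ih k e hΓ)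
  | orI₂ _ ih => exact Or.inr (ih k e hΓ)
  | orE _ _ _ ih ih1 ih2 =>
    rcases ih k e hΓ with h | h
    · refine ih1 k e ?_
      rintro ψ (rfl | hψ)
      · exact h
      · exact hΓ ψ hψ
    · refine ih2 k e ?_
      rintro ψ (rfl | hψ)
      · exact h
      · exact hΓ ψ hψ
  | impI _ ih =>
    intro l hl hφ
    refine ih l _ ?_
    rintro ψ (rfl | hψ)
    · exact hφ
    · exact K.forces_mono ψ hl e (hΓ ψ hψ)
  | impE _ _ ih1 ih2 =>
    have := ih1 k e hΓ k le_rfl
    rw [push_refl] at this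
    exact this (ih2 k e hΓ)
  | allI _ ih =>
    intro l hl a
    refine ih l _ ?_
    rintro _ ⟨ψ, hψ, rfl⟩
    rw [Fm.shift, forces_subst, eval_shift]
    exact K.forces_mono ψ hl e (hΓ ψ hψ)
  | allE t _ ih =>
    have := ih k e hΓ k le_rfl (t.eval (K.str k) e)
    rw [push_refl] at this
    rw [forces_subst, eval_inst]
    exact this
  | exI t _ ih =>
    have := ih k e hΓ
    rw [forces_subst, eval_inst] at this
    exact ⟨_, this⟩
  | exE _ _ ih1 ih2 =>
    obtain ⟨a, ha⟩ := ih1 k e hΓ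
    have := ih2 k (scons a e) ?_
    · rw [Fm.shift, forces_subst, eval_shift] at this
      exact this
    · rintro ψ (rfl | ⟨ψ, hψ, rfl⟩)
      · exact ha
      · rw [Fm.shift, forces_subst, eval_shift]
        exact hΓ ψ hψ
  | eqRefl t => rfl
  | eqSubst φ _ _ ih1 ih2 =>
    have h1 := ih1 k e hΓ
    have h2 := ih2 k e hΓ
    rw [forces_subst, eval_inst] at h2 ⊢
    simp only [Forces] at h1
    rw [← h1]
    exact h2

end KripkeModel

/-- Classical satisfaction and substitution. -/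
theorem ArithStr.sat_subst {M : Type*} (S : ArithStr M) (φ : Fm) (σ : ℕ → Tm) (e : ℕ → M) :
    S.Sat (φ.subst σ) e ↔ S.Sat φ (fun n => (σ n).eval S e) := by
  induction φ generalizing σ e with
  | bot => rfl
  | eq s t => simp only [Fm.subst, ArithStr.Sat, Tm.eval_subst]
  | and φ ψ ih1 ih2 => simp only [Fm.subst, ArithStr.Sat, ih1, ih2]
  | or φ ψ ih1 ih2 => simp only [Fm.subst, ArithStr.Sat, ih1, ih2]
  | imp φ ψ ih1 ih2 => simp only [Fm.subst, ArithStr.Sat, ih1, ih2]
  | all φ ih => simp only [Fm.subst, ArithStr.Sat, ih, eval_up]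
  | ex φ ih => simp only [Fm.subst, ArithStr.Sat, ih, eval_up]

end Pool.Agent.Lib.MP_403d16_lc
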