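import Pool.Agent.Lib.MP_403d16_lc.Defs
import Mathlib.Data.Set.Finite.Basic
import Mathlib.Data.Set.Finite.Lattice
import Mathlib.Tactic

/-! Substitution lemmas, free variables. -/

namespace Pool.Agent.Lib.MP_403d16_lc

/-- Composition of substitutions. -/
def comp (σ τ : ℕ → Tm) : ℕ → Tm := fun n => (σ n).subst τ

theorem Tm.subst_subst (σ τ : ℕ → Tm) (t : Tm) : (t.subst σ).subst τ = t.subst (comp σ τ) := by
  induction t with
  | var n => rfl
  | zero => rfl
  | succ t ih => simp [Tm.subst, ih]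
  | add s t ihs iht => simp [Tm.subst, ihs, iht]
  | mul s t ihs iht => simp [Tm.subst, ihs, iht]

theorem Tm.subst_var (t : Tm) : t.subst Tm.var = t := by
  induction t with
  | var n => rfl
  | zero => rfl
  | succ t ih => simp [Tm.subst, ih]
  | add s t ihs iht => simp [Tm.subst, ihs, iht]
  | mul s t ihs iht => simp [Tm.subst, ihs, iht]

theorem up_var : up Tm.var = Tm.var := by
  funext n; cases n <;> rfl

theorem comp_shift_up (σ : ℕ → Tm) : comp shiftVar (up σ) = comp σ shiftVar := by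
  funext n
  simp [comp, shiftVar, Tm.subst, up]

theorem up_comp (σ τ : ℕ → Tm) : comp (up σ) (up τ) = up (comp σ τ) := by
  funext n
  cases n with
  | zero => rfl
  | succ n =>
    simp only [comp, up]
    rw [Tm.subst_subst, Tm.subst_subst, comp_shift_up]

theorem Fm.subst_subst (σ τ : ℕ → Tm) (φ : Fm) : (φ.subst σ).subst τ = φ.subst (comp σ τ) := by
  induction φ generalizing σ τ with
  | bot => rfl
  | eq s t => simp [Fm.subst, Tm.subst_subst]
  | and φ ψ ih1 ih2 => simp [Fm.subst, ih1, ih2]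
  | or φ ψ ih1 ih2 => simp [Fm.subst, ih1, ih2]
  | imp φ ψ ih1 ih2 => simp [Fm.subst, ih1, ih2]
  | all φ ih => simp [Fm.subst, ih, up_comp]
  | ex φ ih => simp [Fm.subst, ih, up_comp]

theorem Fm.subst_var (φ : Fm) : φ.subst Tm.var = φ := by
  induction φ with
  | bot => rfl
  | eq s t => simp [Fm.subst, Tm.subst_var]
  | and φ ψ ih1 ih2 => simp [Fm.subst, ih1, ih2]
  | or φ ψ ih1 ih2 => simp [Fm.subst, ih1, ih2]
  | imp φ ψ ih1 ih2 => simp [Fm.subst, ih1, ih2]
  | all φ ih => simp [Fm.subst, ih, up_var]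
  | ex φ ih => simp [Fm.subst, ih, up_var]

theorem comp_shift_inst (t : Tm) : comp shiftVar (inst t) = Tm.var := by
  funext n; rfl

theorem comp_shift_step : comp shiftVar stepSubst = shiftVar := by
  funext n; rfl

theorem comp_var (σ : ℕ → Tm) : comp σ Tm.var = σ := by
  funext n; simp [comp, Tm.subst_var]

theorem comp_var_left (σ : ℕ → Tm) : comp Tm.var σ = σ := by
  funext n; rfl

theorem comp_inst (t : Tm) (σ : ℕ → Tm) : comp (inst t) σ = comp (up σ) (inst (t.subst σ)) := by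
  funext n
  cases n with
  | zero => rfl
  | succ n =>
    simp only [comp, up, inst]
    rw [Tm.subst_subst, comp_shift_inst, Tm.subst_var]
    rfl

theorem comp_step (σ : ℕ → Tm) : comp stepSubst (up σ) = comp (up σ) stepSubst := by
  funext n
  cases n with
  | zero => rfl
  | succ n =>
    simp only [comp, up, stepSubst, Tm.subst]
    rw [Tm.subst_subst, comp_shift_step]

@[simp] theorem Fm.shift_inst (φ : Fm) (t : Tm) : φ.shift.subst (inst t) = φ := by
  rw [Fm.shift, Fm.subst_subst, comp_shift_inst, Fm.subst_var]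

@[simp] theorem Fm.shift_step (φ : Fm) : φ.shift.subst stepSubst = φ.shift := by
  rw [Fm.shift, Fm.subst_subst, comp_shift_step]

@[simp] theorem Fm.shift_up (φ : Fm) (σ : ℕ → Tm) : φ.shift.subst (up σ) = (φ.subst σ).shift := by
  rw [Fm.shift, Fm.shift, Fm.subst_subst, Fm.subst_subst, comp_shift_up]

theorem Fm.inst_subst (φ : Fm) (t : Tm) (σ : ℕ → Tm) :
    (φ.subst (inst t)).subst σ = (φ.subst (up σ)).subst (inst (t.subst σ)) := by
  rw [Fm.subst_subst, Fm.subst_subst, comp_inst]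

theorem Fm.step_subst (φ : Fm) (σ : ℕ → Tm) :
    (φ.subst stepSubst).subst (up σ) = (φ.subst (up σ)).subst stepSubst := by
  rw [Fm.subst_subst, Fm.subst_subst, comp_step]

/-- The variable `x` occurs in the term. -/
def Tm.Free (x : ℕ) : Tm → Prop
  | .var n => n = x
  | .zero => False
  | .succ t => t.Free x
  | .add s t => s.Free x ∨ t.Free x
  | .mul s t => s.Free x ∨ t.Free x

/-- The variable `x` occurs free in the formula. -/
def Fm.Free : ℕ → Fm → Prop
  | _, .bot => False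
  | x, .eq s t => s.Free x ∨ t.Free x
  | x, .and φ ψ => φ.Free x ∨ ψ.Free x
  | x, .or φ ψ => φ.Free x ∨ ψ.Free x
  | x, .imp φ ψ => φ.Free x ∨ ψ.Free x
  | x, .all φ => φ.Free (x + 1)
  | x, .ex φ => φ.Free (x + 1)

theorem Tm.subst_congr {σ τ : ℕ → Tm} {t : Tm} (h : ∀ x, t.Free x → σ x = τ x) :
    t.subst σ = t.subst τ := by
  induction t with
  | var n => exact h n rfl
  | zero => rfl
  | succ t ih => simp only [Tm.subst]; rw [ih h]
  | add s t ihs iht =>
    simp only [Tm.subst]; rw [ihs fun x hx => h x (Or.inl hx), iht fun x hx => h x (Or.inr hx)]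
  | mul s t ihs iht =>
    simp only [Tm.subst]; rw [ihs fun x hx => h x (Or.inl hx), iht fun x hx => h x (Or.inr hx)]

theorem Fm.subst_congr {σ τ : ℕ → Tm} {φ : Fm} (h : ∀ x, φ.Free x → σ x = τ x) :
    φ.subst σ = φ.subst τ := by
  induction φ generalizing σ τ with
  | bot => rfl
  | eq s t =>
    simp only [Fm.subst]
    rw [Tm.subst_congr fun x hx => h x (Or.inl hx), Tm.subst_congr fun x hx => h x (Or.inr hx)]
  | and φ ψ ih1 ih2 =>
    simp only [Fm.subst]; rw [ih1 fun x hx => h x (Or.inl hx), ih2 fun x hx => h x (Or.inr hx)]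
  | or φ ψ ih1 ih2 =>
    simp only [Fm.subst]; rw [ih1 fun x hx => h x (Or.inl hx), ih2 fun x hx => h x (Or.inr hx)]
  | imp φ ψ ih1 ih2 =>
    simp only [Fm.subst]; rw [ih1 fun x hx => h x (Or.inl hx), ih2 fun x hx => h x (Or.inr hx)]
  | all φ ih =>
    simp only [Fm.subst]
    rw [ih]
    intro x hx
    cases x with
    | zero => rfl
    | succ x => simp only [up]; rw [h x hx]
  | ex φ ih =>
    simp only [Fm.subst]
    rw [ih]
    intro x hx
    cases x with
    | zero => rfl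
    | succ x => simp only [up]; rw [h x hx]

theorem Tm.free_subst {σ : ℕ → Tm} {t : Tm} {y : ℕ} :
    (t.subst σ).Free y ↔ ∃ x, t.Free x ∧ (σ x).Free y := by
  induction t with
  | var n => simp [Tm.subst, Tm.Free]
  | zero => simp [Tm.subst, Tm.Free]
  | succ t ih => simpa [Tm.subst, Tm.Free] using ih
  | add s t ihs iht =>
    simp only [Tm.subst, Tm.Free, ihs, iht]
    constructor
    · rintro (⟨x, h1, h2⟩ | ⟨x, h1, h2⟩)
      · exact ⟨x, Or.inl h1, h2⟩
      · exact ⟨x, Or.inr h1, h2⟩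
    · rintro ⟨x, h1 | h1, h2⟩
      · exact Or.inl ⟨x, h1, h2⟩
      · exact Or.inr ⟨x, h1, h2⟩
  | mul s t ihs iht =>
    simp only [Tm.subst, Tm.Free, ihs, iht]
    constructor
    · rintro (⟨x, h1, h2⟩ | ⟨x, h1, h2⟩)
      · exact ⟨x, Or.inl h1, h2⟩
      · exact ⟨x, Or.inr h1, h2⟩
    · rintro ⟨x, h1 | h1, h2⟩
      · exact Or.inl ⟨x, h1, h2⟩
      · exact Or.inr ⟨x, h1, h2⟩

theorem free_up {σ : ℕ → Tm} {x y : ℕ} (h : (up σ x).Free (y + 1)) :
    ∃ x', x = x' + 1 ∧ (σ x').Free y := by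
  cases x with
  | zero => simp [up, Tm.Free] at h
  | succ x =>
    refine ⟨x, rfl, ?_⟩
    simp only [up] at h
    rw [Tm.free_subst] at h
    obtain ⟨z, hz, hz'⟩ := h
    simp only [shiftVar, Tm.Free] at hz'
    have : z = y := by omega
    rwa [this] at hz

theorem Fm.free_subst {σ : ℕ → Tm} {φ : Fm} {y : ℕ} (h : (φ.subst σ).Free y) :
    ∃ x, φ.Free x ∧ (σ x).Free y := by
  induction φ generalizing σ y with
  | bot => exact h.elim
  | eq s t =>
    rcases h with h | h
    · obtain ⟨x, h1, h2⟩ := Tm.free_subst.1 h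
      exact ⟨x, Or.inl h1, h2⟩
    · obtain ⟨x, h1, h2⟩ := Tm.free_subst.1 h
      exact ⟨x, Or.inr h1, h2⟩
  | and φ ψ ih1 ih2 =>
    rcases h with h | h
    · obtain ⟨x, h1, h2⟩ := ih1 h
      exact ⟨x, Or.inl h1, h2⟩
    · obtain ⟨x, h1, h2⟩ := ih2 h
      exact ⟨x, Or.inr h1, h2⟩
  | or φ ψ ih1 ih2 =>
    rcases h with h | h
    · obtain ⟨x, h1, h2⟩ := ih1 h
      exact ⟨x, Or.inl h1, h2⟩
    · obtain ⟨x, h1, h2⟩ := ih2 h
      exact ⟨x, Or.inr h1, h2⟩
  | imp φ ψ ih1 ih2 =>
    rcases h with h | h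
    · obtain ⟨x, h1, h2⟩ := ih1 h
      exact ⟨x, Or.inl h1, h2⟩
    · obtain ⟨x, h1, h2⟩ := ih2 h
      exact ⟨x, Or.inr h1, h2⟩
  | all φ ih =>
    obtain ⟨x, h1, h2⟩ := ih h
    obtain ⟨x', rfl, h3⟩ := free_up h2
    exact ⟨x', h1, h3⟩
  | ex φ ih =>
    obtain ⟨x, h1, h2⟩ := ih h
    obtain ⟨x', rfl, h3⟩ := free_up h2
    exact ⟨x', h1, h3⟩

theorem Tm.finite_free (t : Tm) : {x | t.Free x}.Finite := by
  induction t with
  | var n => simp only [Tm.Free]; exact (Set.finite_singleton n).subset fun x hx => hx.symm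
  | zero => simp [Tm.Free]
  | succ t ih => exact ih
  | add s t ihs iht => exact (ihs.union iht)
  | mul s t ihs iht => exact (ihs.union iht)

theorem Fm.finite_free (φ : Fm) : {x | φ.Free x}.Finite := by
  induction φ with
  | bot => simp [Fm.Free]
  | eq s t => exact s.finite_free.union t.finite_free
  | and φ ψ ih1 ih2 => exact ih1.union ih2
  | or φ ψ ih1 ih2 => exact ih1.union ih2
  | imp φ ψ ih1 ih2 => exact ih1.union ih2
  | all φ ih => exact ih.preimage (fun a _ b _ h => Nat.succ_injective h)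
  | ex φ ih => exact ih.preimage (fun a _ b _ h => Nat.succ_injective h)

end Pool.Agent.Lib.MP_403d16_lc
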